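import Mathlib

set_option autoImplicit false

/-!
# Koszul relations and regular sequences of homogeneous polynomials
-/

namespace Pool.Agent.H119.LSS

open Finset MvPolynomial Matrix

section General

variable {R : Type*} [CommRing R]

/-- alternating matrices -/
def Alt {ι : Type*} (c : Matrix ι ι R) : Prop := (∀ i, c i i = 0) ∧ ∀ i j, c i j = - c j i

/-- `a` is a Koszul relation of `f` -/
def Kos {ι : Type*} [Fintype ι] (f a : ι → R) : Prop :=
  ∃ c : Matrix ι ι R, Alt c ∧ a = c *ᵥ f

/-- all relations of `f` are Koszul relations -/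
def H1 {ι : Type*} [Fintype ι] (f : ι → R) : Prop := ∀ a : ι → R, a ⬝ᵥ f = 0 → Kos f a

theorem Alt.quad {ι : Type*} [Fintype ι] {c : Matrix ι ι R} (h : Alt c) (v : ι → R) :
    v ⬝ᵥ (c *ᵥ v) = 0 := by
  classical
  have e : v ⬝ᵥ (c *ᵥ v) = ∑ p : ι × ι, v p.1 * (c p.1 p.2 * v p.2) := by
    rw [Fintype.sum_prod_type]
    simp only [dotProduct, mulVec, Finset.mul_sum]
  rw [e]
  refine Finset.sum_involution (fun p _ => (p.2, p.1)) ?_ ?_ ?_ ?_
  · rintro ⟨i, j⟩ _
    simp only
    rw [h.2 i j]; ring
  · rintro ⟨i, j⟩ _ hne heq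
    simp only [Prod.mk.injEq] at heq
    apply hne
    rw [heq.1]
    simp [h.1]
  · intros; simp
  · rintro ⟨i, j⟩ _; rfl

theorem Alt.conj {ι κ : Type*} [Fintype ι] [Fintype κ] {c : Matrix κ κ R} (h : Alt c)
    (N : Matrix κ ι R) : Alt (Nᵀ * c * N) := by
  have ht : cᵀ = -c := by
    ext i j
    simp only [transpose_apply, Matrix.neg_apply]
    rw [h.2 j i]
  refine ⟨fun i => ?_, fun i j => ?_⟩
  · have := h.quad (fun k => N k i)
    rw [← this]
    simp only [Matrix.mul_apply, dotProduct, mulVec, transpose_apply, Finset.mul_sum,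
      Finset.sum_mul]
    rw [Finset.sum_comm]
    refine Finset.sum_congr rfl fun k _ => Finset.sum_congr rfl fun l _ => by ring
  · have : (Nᵀ * c * N)ᵀ = -(Nᵀ * c * N) := by
      rw [transpose_mul, transpose_mul, transpose_transpose, ht]
      simp [Matrix.mul_assoc]
    have h2 := congrFun (congrFun this j) i
    simpa using h2

variable {ι : Type*} [Fintype ι]

theorem Kos.rel {f a : ι → R} (h : Kos f a) : a ⬝ᵥ f = 0 := by
  obtain ⟨c, hc, rfl⟩ := h
  rw [dotProduct_comm]
  exact hc.quad f

theorem Kos.add {f a b : ι → R} (h : Kos f a) (h' : Kos f b) : Kos f (a + b) := by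
  obtain ⟨c, hc, rfl⟩ := h
  obtain ⟨c', hc', rfl⟩ := h'
  refine ⟨c + c', ⟨fun i => ?_, fun i j => ?_⟩, by rw [Matrix.add_mulVec]⟩
  · simp [hc.1, hc'.1]
  · simp only [Matrix.add_apply]; rw [hc.2 i j, hc'.2 i j]; ring

theorem Kos.smul {f a : ι → R} (r : R) (h : Kos f a) : Kos f (r • a) := by
  obtain ⟨c, hc, rfl⟩ := h
  refine ⟨r • c, ⟨fun i => ?_, fun i j => ?_⟩, by rw [Matrix.smul_mulVec]⟩
  · simp [hc.1]
  · simp only [Matrix.smul_apply, smul_eq_mul]; rw [hc.2 i j]; ring

theorem Kos.zero (f : ι → R) : Kos f 0 :=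
  ⟨0, ⟨fun i => rfl, fun i j => by simp⟩, by simp⟩

/-- the regularity part of the definition of a regular sequence -/
def RegPart {r : ℕ} (g : Fin r → R) : Prop :=
  ∀ i : Fin r, ∀ a : R, a * g i ∈ Ideal.span (g '' {j | j < i}) →
    a ∈ Ideal.span (g '' {j | j < i})

omit [CommRing R] in
theorem image_castSucc {r : ℕ} (g : Fin (r + 1) → R) (i : Fin r) :
    (fun j : Fin r => g j.castSucc) '' {j | j < i} = g '' {j | j < i.castSucc} := by
  ext x
  constructor
  · rintro ⟨j, hj, rfl⟩
    exact ⟨j.castSucc, by simpa only [Set.mem_ofPred_eq, Fin.castSucc_lt_castSucc_iff] using hj, rfl⟩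
  · rintro ⟨j, hj, rfl⟩
    have hj' : j < i.castSucc := hj
    have hlt : (j : ℕ) < r := lt_of_lt_of_le hj' (by simpa using i.2.le)
    refine ⟨⟨j, hlt⟩, ?_, ?_⟩
    · show (⟨j, hlt⟩ : Fin r) < i
      exact hj'
    · show g (Fin.castSucc ⟨j, hlt⟩) = g j
      rfl

omit [CommRing R] in
theorem image_last {r : ℕ} (g : Fin (r + 1) → R) :
    g '' {j | j < Fin.last r} = Set.range (fun j : Fin r => g j.castSucc) := by
  ext x
  constructor
  · rintro ⟨j, hj, rfl⟩
    have hj' : j < Fin.last r := hj
    exact ⟨⟨j, hj'⟩, rfl⟩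
  · rintro ⟨j, rfl⟩
    exact ⟨j.castSucc, Fin.castSucc_lt_last j, rfl⟩

theorem RegPart.init {r : ℕ} {g : Fin (r + 1) → R} (h : RegPart g) :
    RegPart (fun j : Fin r => g j.castSucc) := by
  intro i a ha
  rw [image_castSucc] at ha ⊢
  exact h i.castSucc a ha

theorem RegPart.h1 : ∀ {r : ℕ} {g : Fin r → R}, RegPart g → H1 g := by
  intro r
  induction r with
  | zero =>
    intro g _ a _
    exact ⟨0, ⟨fun i => rfl, fun i j => by simp⟩, funext fun i => i.elim0⟩
  | succ r ih =>
    intro g hg a ha
    have h1 := ih hg.init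
    rw [dotProduct, Fin.sum_univ_castSucc] at ha
    have hm : a (Fin.last r) * g (Fin.last r) ∈ Ideal.span (g '' {j | j < Fin.last r}) := by
      have : a (Fin.last r) * g (Fin.last r) = - ∑ i : Fin r, a i.castSucc * g i.castSucc := by
        linear_combination ha
      rw [this, image_last]
      refine neg_mem (Ideal.sum_mem _ fun i _ => Ideal.mul_mem_left _ _ (Ideal.subset_span ⟨i, rfl⟩))
    have hm2 := hg _ _ hm
    rw [image_last, Ideal.mem_span_range_iff_exists_fun] at hm2
    obtain ⟨e, he⟩ := hm2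
    obtain ⟨c, hc, hce⟩ := h1 (fun i => a i.castSucc + e i * g (Fin.last r)) (by
      have : (fun i : Fin r => a i.castSucc + e i * g (Fin.last r)) ⬝ᵥ (fun i : Fin r => g i.castSucc)
          = (∑ i : Fin r, a i.castSucc * g i.castSucc)
            + g (Fin.last r) * ∑ i : Fin r, e i * g i.castSucc := by
        rw [dotProduct, Finset.mul_sum, ← Finset.sum_add_distrib]
        refine Finset.sum_congr rfl fun i _ => by ring
      rw [this, he]
      linear_combination ha)
    refine ⟨fun i j => Fin.lastCases (motive := fun _ => R) (Fin.lastCases (motive := fun _ => R) 0 e j)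
      (fun i' => Fin.lastCases (motive := fun _ => R) (- e i') (fun j' => c i' j') j) i, ⟨?_, ?_⟩, ?_⟩
    · intro i
      refine Fin.lastCases ?_ (fun i' => ?_) i
      · simp
      · simp [hc.1]
    · intro i j
      refine Fin.lastCases ?_ (fun i' => ?_) i
      · refine Fin.lastCases ?_ (fun j' => ?_) j
        · simp
        · simp
      · refine Fin.lastCases ?_ (fun j' => ?_) j
        · simp
        · simp [← hc.2 i' j']
    · funext i
      refine Fin.lastCases ?_ (fun i' => ?_) i
      · simp only [mulVec, dotProduct, Fin.sum_univ_castSucc, Fin.lastCases_last,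
          Fin.lastCases_castSucc, zero_mul, add_zero]
        exact he.symm
      · have := congrFun hce i'
        simp only [mulVec, dotProduct] at this
        simp only [mulVec, dotProduct, Fin.sum_univ_castSucc, Fin.lastCases_last,
          Fin.lastCases_castSucc]
        rw [← this]; ring

/-- transport of `H1` along a ring isomorphism -/
theorem H1.map_equiv {S : Type*} [CommRing S] (e : R ≃+* S) {f : ι → R} (h : H1 f) :
    H1 (fun i => e (f i)) := by
  intro a ha
  obtain ⟨c, hc, hce⟩ := h (fun i => e.symm (a i)) (by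
    apply e.injective
    rw [map_zero, ← ha, dotProduct, dotProduct, map_sum]
    refine Finset.sum_congr rfl fun i _ => by simp)
  refine ⟨fun i j => e (c i j), ⟨fun i => by simp [hc.1], fun i j => ?_⟩, ?_⟩
  · show e (c i j) = - e (c j i)
    rw [hc.2 i j, map_neg]
  funext i
  have := congrArg e (congrFun hce i)
  simp only [RingEquiv.apply_symm_apply, mulVec, dotProduct, map_sum, map_mul] at this
  simpa only [mulVec, dotProduct] using this

/-- reindexing -/
theorem H1.reindex {κ : Type*} [Fintype κ] (e : κ ≃ ι) {f : ι → R} (h : H1 f) :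
    H1 (fun i => f (e i)) := by
  intro a ha
  obtain ⟨c, hc, hce⟩ := h (fun i => a (e.symm i)) (by
    rw [← ha, dotProduct, dotProduct]
    refine (Fintype.sum_equiv e _ _ fun i => by simp).symm)
  refine ⟨fun i j => c (e i) (e j), ⟨fun i => hc.1 _, fun i j => hc.2 _ _⟩, ?_⟩
  funext i
  have := congrFun hce (e i)
  simp only [Equiv.symm_apply_apply, mulVec, dotProduct] at this
  rw [this]
  simp only [mulVec, dotProduct]
  exact (Fintype.sum_equiv e _ _ fun i => rfl).symm

/-- polynomial extensions -/
theorem H1.polynomial {τ : Type*} {f : ι → R} (h : H1 f) :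
    H1 (fun i => (C (f i) : MvPolynomial τ R)) := by
  classical
  intro a ha
  have key : ∀ γ : τ →₀ ℕ, ∃ c : Matrix ι ι R, Alt c ∧ (fun i => coeff γ (a i)) = c *ᵥ f := by
    intro γ
    apply h
    have := congrArg (coeff γ) ha
    simp only [dotProduct, coeff_sum, coeff_zero] at this
    simp only [dotProduct]
    rw [← this]
    refine Finset.sum_congr rfl fun i _ => by rw [mul_comm (a i) (C (f i)), coeff_C_mul, mul_comm]
  choose c hc hce using key
  let U : Finset (τ →₀ ℕ) := univ.biUnion fun i => (a i).support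
  refine ⟨fun i j => ∑ γ ∈ U, monomial γ (c γ i j), ⟨fun i => ?_, fun i j => ?_⟩, ?_⟩
  · refine Finset.sum_eq_zero fun γ _ => by rw [(hc γ).1]; simp
  · show (∑ γ ∈ U, monomial γ (c γ i j)) = - ∑ γ ∈ U, monomial γ (c γ j i)
    rw [← Finset.sum_neg_distrib]
    refine Finset.sum_congr rfl fun γ _ => by rw [(hc γ).2 i j]; simp
  · funext i
    have e1 : a i = ∑ γ ∈ U, monomial γ (coeff γ (a i)) := by
      conv_lhs => rw [(a i).as_sum]
      refine Finset.sum_subset ?_ ?_
      · intro γ hγ
        exact Finset.mem_biUnion.2 ⟨i, Finset.mem_univ _, hγ⟩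
      · intro γ _ hγ
        rw [notMem_support_iff.1 hγ]; simp
    rw [e1]
    have e2 : ∀ γ, (monomial γ (coeff γ (a i)) : MvPolynomial τ R)
        = ∑ j, monomial γ (c γ i j) * C (f j) := by
      intro γ
      have := congrFun (hce γ) i
      simp only [mulVec, dotProduct] at this
      rw [this, map_sum]
      refine Finset.sum_congr rfl fun j _ => by rw [mul_comm (monomial γ _), C_mul_monomial, mul_comm]
    simp only [mulVec, dotProduct]
    rw [Finset.sum_congr rfl fun γ _ => e2 γ, Finset.sum_comm]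
    refine Finset.sum_congr rfl fun j _ => by rw [Finset.sum_mul]

/-- change of generators -/
theorem change {κ : Type*} [Fintype κ] [DecidableEq ι] {f : ι → R} {g : κ → R} (hg : H1 g)
    (M : Matrix ι κ R) (N : Matrix κ ι R) (hM : f = M *ᵥ g) (hN : g = N *ᵥ f)
    (a : ι → R) (ha : a ⬝ᵥ f = 0) : Kos f (((M * N).det ^ 2) • a) := by
  set T := M * N with hT
  have hTf : T *ᵥ f = f := by rw [hT, ← mulVec_mulVec, ← hN, ← hM]
  obtain ⟨c, hc, hce⟩ := hg (a ᵥ* M) (by rw [← dotProduct_mulVec, ← hM]; exact ha)
  have hadj : T.adjugate *ᵥ f = T.det • f := by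
    conv_lhs => rw [← hTf]
    rw [mulVec_mulVec, adjugate_mul, smul_mulVec, one_mulVec]
  have e1 : a ᵥ* T = (Nᵀ * c * N) *ᵥ f := by
    rw [hT, ← vecMul_vecMul, hce, ← mulVec_transpose, ← mulVec_mulVec, ← mulVec_mulVec, ← hN]
  have e2 : (T.det ^ 2) • a = (T.adjugateᵀ * (Nᵀ * c * N) * T.adjugate) *ᵥ f := by
    have e3 : T.det • a = a ᵥ* T ᵥ* T.adjugate := by
      rw [vecMul_vecMul, mul_adjugate, vecMul_smul, vecMul_one]
    rw [pow_two, mul_smul, e3, e1, ← mulVec_transpose, ← mulVec_smul, ← mulVec_smul, ← hadj]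
    simp only [mulVec_mulVec, Matrix.mul_assoc]
  exact ⟨_, (hc.conj N).conj _, e2⟩

end General

section Poly

variable {σ : Type*} {k : Type*} [CommRing k] {ι : Type*} [Fintype ι]

/-- the part of `p` in degrees `≤ N - w` -/
noncomputable def tr (N w : ℕ) (p : MvPolynomial σ k) : MvPolynomial σ k :=
  ∑ m ∈ p.support with m.degree + w ≤ N, monomial m (coeff m p)

theorem coeff_tr (N w : ℕ) (p : MvPolynomial σ k) (m : σ →₀ ℕ) :
    coeff m (tr N w p) = if m.degree + w ≤ N then coeff m p else 0 := by
  classical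
  rw [tr, coeff_sum]
  simp only [coeff_monomial]
  rw [Finset.sum_ite_eq']
  simp only [Finset.mem_filter, mem_support_iff]
  by_cases h : coeff m p = 0
  · simp [h]
  · simp [h]

theorem tr_zero (N w : ℕ) : tr N w (0 : MvPolynomial σ k) = 0 := by
  ext m; rw [coeff_tr]; simp

theorem tr_neg (N w : ℕ) (p : MvPolynomial σ k) : tr N w (-p) = - tr N w p := by
  ext m; rw [coeff_tr, coeff_neg, coeff_neg, coeff_tr]; split <;> simp

theorem tr_add (N w : ℕ) (p q : MvPolynomial σ k) : tr N w (p + q) = tr N w p + tr N w q := by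
  ext m; rw [coeff_tr, coeff_add, coeff_add, coeff_tr, coeff_tr]; split <;> simp

theorem tr_sum {κ : Type*} (s : Finset κ) (N w : ℕ) (p : κ → MvPolynomial σ k) :
    tr N w (∑ i ∈ s, p i) = ∑ i ∈ s, tr N w (p i) := by
  classical
  induction s using Finset.induction_on with
  | empty => simp [tr_zero]
  | insert i s hi ih => rw [Finset.sum_insert hi, Finset.sum_insert hi, tr_add, ih]

theorem tr_mul (N w e : ℕ) (p f : MvPolynomial σ k) (hf : f.IsHomogeneous e) :
    tr N w (p * f) = tr N (w + e) p * f := by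
  classical
  ext m
  rw [coeff_tr, coeff_mul, coeff_mul]
  by_cases hm : m.degree + w ≤ N
  · rw [if_pos hm]
    refine Finset.sum_congr rfl ?_
    rintro ⟨u, v⟩ huv
    have huv' : u + v = m := by simpa using huv
    by_cases hv : coeff v f = 0
    · simp [hv]
    · have hd : v.degree = e := by
        have := hf hv
        rwa [Finsupp.degree_eq_weight_one]
      have hmd : m.degree = u.degree + v.degree := by rw [← huv', map_add]
      show coeff u p * coeff v f = coeff u (tr N (w + e) p) * coeff v f
      rw [coeff_tr, if_pos (by omega)]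
  · rw [if_neg hm]
    symm
    refine Finset.sum_eq_zero ?_
    rintro ⟨u, v⟩ huv
    have huv' : u + v = m := by simpa using huv
    by_cases hv : coeff v f = 0
    · simp [hv]
    · have hd : v.degree = e := by
        have := hf hv
        rwa [Finsupp.degree_eq_weight_one]
      have hmd : m.degree = u.degree + v.degree := by rw [← huv', map_add]
      show coeff u (tr N (w + e) p) * coeff v f = 0
      rw [coeff_tr, if_neg (by omega), zero_mul]

/-- all monomials of `p` have degree at least `t` -/
def Ord (t : ℕ) (p : MvPolynomial σ k) : Prop := ∀ m : σ →₀ ℕ, m.degree < t → coeff m p = 0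

theorem Ord.mul {s t : ℕ} {p q : MvPolynomial σ k} (hp : Ord s p) (hq : Ord t q) :
    Ord (s + t) (p * q) := by
  classical
  intro m hm
  rw [coeff_mul]
  refine Finset.sum_eq_zero ?_
  rintro ⟨u, v⟩ huv
  have huv' : u + v = m := by simpa using huv
  have hmd : m.degree = u.degree + v.degree := by rw [← huv', map_add]
  rcases lt_or_ge u.degree s with h | h
  · rw [hp u h, zero_mul]
  · rw [hq v (by omega), mul_zero]

theorem Ord.pow {z : MvPolynomial σ k} (hz : constantCoeff z = 0) (t : ℕ) : Ord t (z ^ t) := by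
  induction t with
  | zero => intro m hm; simp at hm
  | succ t ih =>
    rw [pow_succ]
    refine Ord.mul ih ?_
    intro m hm
    have : m = 0 := by
      have h0 : m.degree = 0 := by omega
      exact (Finsupp.degree_eq_zero_iff m).1 h0
    rw [this]
    simpa [constantCoeff_eq] using hz

/-- separatedness -/
theorem kos_of_ord {f : ι → MvPolynomial σ k} {w : ι → ℕ} (hf : ∀ i, (f i).IsHomogeneous (w i))
    {a : ι → MvPolynomial σ k}
    (h : ∀ t : ℕ, ∃ b : ι → MvPolynomial σ k, Kos f (a - b) ∧ ∀ i, Ord t (b i)) : Kos f a := by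
  classical
  let N : ℕ := univ.sup fun i => (a i).totalDegree + w i
  obtain ⟨b, ⟨c, hc, hce⟩, hb⟩ := h (N + 1)
  refine ⟨fun i j => tr N (w i + w j) (c i j), ⟨fun i => ?_, fun i j => ?_⟩, ?_⟩
  · show tr N (w i + w i) (c i i) = 0
    rw [hc.1, tr_zero]
  · show tr N (w i + w j) (c i j) = - tr N (w j + w i) (c j i)
    rw [hc.2 i j, tr_neg, add_comm (w i)]
  · funext i
    have e1 : tr N (w i) (a i) = a i := by
      ext m
      rw [coeff_tr]
      split_ifs with hm
      · rfl
      · by_contra hne
        have h1 : m ∈ (a i).support := mem_support_iff.2 (fun h0 => hne h0.symm)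
        have h2 : m.degree ≤ (a i).totalDegree := le_totalDegree h1
        have h3 : (a i).totalDegree + w i ≤ N :=
          Finset.le_sup (f := fun i => (a i).totalDegree + w i) (Finset.mem_univ i)
        omega
    have e2 : tr N (w i) (b i) = 0 := by
      ext m
      rw [coeff_tr, coeff_zero]
      split_ifs with hm
      · exact hb i m (by omega)
      · rfl
    have e3 : a i = (∑ j, c i j * f j) + b i := by
      have := congrFun hce i
      simp only [Pi.sub_apply, mulVec, dotProduct] at this
      rw [← this]; ring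
    rw [← e1]
    conv_lhs => rw [e3]
    rw [tr_add, e2, add_zero, tr_sum]
    simp only [mulVec, dotProduct]
    exact Finset.sum_congr rfl fun j _ => tr_mul _ _ _ _ _ (hf j)

/-- the basic induction -/
theorem h1_of_step {f : ι → MvPolynomial σ k} {w : ι → ℕ} (hf : ∀ i, (f i).IsHomogeneous (w i))
    (z : MvPolynomial σ k) (hz : constantCoeff z = 0)
    (h : ∀ a : ι → MvPolynomial σ k, a ⬝ᵥ f = 0 → ∃ b : ι → MvPolynomial σ k, b ⬝ᵥ f = 0 ∧
      Kos f (a - z • b)) : H1 f := by
  intro a ha
  have key : ∀ t : ℕ, ∃ b : ι → MvPolynomial σ k, b ⬝ᵥ f = 0 ∧ Kos f (a - z ^ t • b) := by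
    intro t
    induction t with
    | zero => exact ⟨a, ha, by simpa using Kos.zero f⟩
    | succ t ih =>
      obtain ⟨b, hb, hk⟩ := ih
      obtain ⟨b', hb', hk'⟩ := h b hb
      refine ⟨b', hb', ?_⟩
      have : a - z ^ (t + 1) • b' = (a - z ^ t • b) + z ^ t • (b - z • b') := by
        rw [smul_sub, smul_smul, ← pow_succ]; abel
      rw [this]
      exact hk.add (hk'.smul _)
  refine kos_of_ord hf fun t => ?_
  obtain ⟨b, _, hk⟩ := key t
  refine ⟨_, hk, fun i => ?_⟩
  have := (Ord.pow hz t).mul (q := b i) (t := 0) (fun m hm => absurd hm (Nat.not_lt_zero _))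
  simpa using this

/-- `H1` passes from `g` to a minimal system of homogeneous generators of the same ideal -/
theorem H1.minimal {κ : Type*} [Fintype κ] {f : ι → MvPolynomial σ k} {w : ι → ℕ}
    (hf : ∀ i, (f i).IsHomogeneous (w i)) {g : κ → MvPolynomial σ k} (hg : H1 g)
    (hspan : Ideal.span (Set.range g) = Ideal.span (Set.range f))
    (hmin : ∀ a : ι → MvPolynomial σ k, a ⬝ᵥ f = 0 → ∀ i, constantCoeff (a i) = 0) : H1 f := by
  classical
  have hM : ∀ i, ∃ c : κ → MvPolynomial σ k, ∑ j, c j * g j = f i := by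
    intro i
    have : f i ∈ Ideal.span (Set.range g) := by
      rw [hspan]; exact Ideal.subset_span ⟨i, rfl⟩
    exact Ideal.mem_span_range_iff_exists_fun.1 this
  have hN : ∀ j, ∃ c : ι → MvPolynomial σ k, ∑ i, c i * f i = g j := by
    intro j
    have : g j ∈ Ideal.span (Set.range f) := by
      rw [← hspan]; exact Ideal.subset_span ⟨j, rfl⟩
    exact Ideal.mem_span_range_iff_exists_fun.1 this
  choose M hM using hM
  choose N hN using hN
  have hM' : f = (Matrix.of M) *ᵥ g := by
    funext i; simp only [mulVec, dotProduct, Matrix.of_apply]; exact (hM i).symm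
  have hN' : g = (Matrix.of N) *ᵥ f := by
    funext i; simp only [mulVec, dotProduct, Matrix.of_apply]; exact (hN i).symm
  set T := Matrix.of M * Matrix.of N with hT
  have hTf : T *ᵥ f = f := by rw [hT, ← mulVec_mulVec, ← hN', ← hM']
  have hdet : constantCoeff T.det = 1 := by
    rw [RingHom.map_det]
    have : (constantCoeff (σ := σ) (R := k)).mapMatrix T = 1 := by
      have h0 : ∀ i j, constantCoeff ((T - 1) i j) = 0 := by
        intro i j
        refine hmin (fun j => (T - 1) i j) ?_ j
        have := congrFun (show (T - 1) *ᵥ f = 0 by rw [sub_mulVec, hTf, one_mulVec, sub_self]) i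
        exact this
      ext i j
      have := h0 i j
      rw [Matrix.sub_apply, map_sub, sub_eq_zero] at this
      rw [RingHom.mapMatrix_apply, Matrix.map_apply, this]
      by_cases hij : i = j
      · subst hij; simp
      · simp [Matrix.one_apply_ne hij]
    rw [this, Matrix.det_one]
  refine h1_of_step hf (1 - T.det ^ 2) (by rw [map_sub, map_pow, hdet]; simp) fun a ha => ?_
  refine ⟨a, ha, ?_⟩
  have := change hg _ _ hM' hN' a ha
  rw [← hT] at this
  have e : a - (1 - T.det ^ 2) • a = T.det ^ 2 • a := by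
    rw [sub_smul, one_smul]; abel
  rw [e]
  exact this

/-- leaving out the last element -/
theorem H1.init {r : ℕ} {f : Fin (r + 1) → MvPolynomial σ k} {w : Fin (r + 1) → ℕ}
    (hf : ∀ i, (f i).IsHomogeneous (w i)) (h0 : ∀ i, constantCoeff (f i) = 0) (h : H1 f) :
    H1 (fun i : Fin r => f i.castSucc) := by
  refine h1_of_step (w := fun i => w i.castSucc) (fun i => hf _) (f (Fin.last r)) (h0 _)
    fun a ha => ?_
  obtain ⟨c, hc, hce⟩ := h (Fin.snoc (α := fun _ => MvPolynomial σ k) a 0) (by
    rw [dotProduct, Fin.sum_univ_castSucc]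
    simp only [Fin.snoc_castSucc, Fin.snoc_last, zero_mul, add_zero]
    exact ha)
  have hlast := congrFun hce (Fin.last r)
  simp only [mulVec, dotProduct, Fin.sum_univ_castSucc, Fin.snoc_last] at hlast
  rw [hc.1, zero_mul, add_zero] at hlast
  refine ⟨fun i => c i.castSucc (Fin.last r), ?_, ?_⟩
  · rw [dotProduct]
    have : ∀ i : Fin r, c i.castSucc (Fin.last r) * f i.castSucc
        = -(c (Fin.last r) i.castSucc * f i.castSucc) := by
      intro i; rw [hc.2 i.castSucc]; ring
    rw [Finset.sum_congr rfl fun i _ => this i, Finset.sum_neg_distrib, ← hlast, neg_zero]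
  · refine ⟨fun i j => c i.castSucc j.castSucc, ⟨fun i => hc.1 _, fun i j => hc.2 _ _⟩, ?_⟩
    funext i
    have := congrFun hce i.castSucc
    simp only [mulVec, dotProduct, Fin.sum_univ_castSucc, Fin.snoc_castSucc] at this
    simp only [mulVec, dotProduct, Pi.sub_apply, Pi.smul_apply, smul_eq_mul]
    rw [this]; ring

theorem H1.regPart : ∀ {r : ℕ} {f : Fin r → MvPolynomial σ k} {w : Fin r → ℕ},
    (∀ i, (f i).IsHomogeneous (w i)) → (∀ i, constantCoeff (f i) = 0) → H1 f → RegPart f := by
  intro r
  induction r with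
  | zero => intro f w _ _ _ i; exact i.elim0
  | succ r ih =>
    intro f w hf h0 h i
    have h1 := ih (w := fun i => w i.castSucc) (fun i => hf i.castSucc) (fun i => h0 i.castSucc)
      (h.init hf h0)
    refine Fin.lastCases ?_ (fun i' => ?_) i
    · intro a ha
      rw [image_last, Ideal.mem_span_range_iff_exists_fun] at ha ⊢
      obtain ⟨e, he⟩ := ha
      obtain ⟨c, hc, hce⟩ := h (Fin.snoc (α := fun _ => MvPolynomial σ k) (fun i => - e i) a) (by
        rw [dotProduct, Fin.sum_univ_castSucc]
        simp only [Fin.snoc_castSucc, Fin.snoc_last, neg_mul, Finset.sum_neg_distrib]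
        rw [he]; ring)
      have hlast := congrFun hce (Fin.last r)
      simp only [mulVec, dotProduct, Fin.sum_univ_castSucc, Fin.snoc_last] at hlast
      rw [hc.1, zero_mul, add_zero] at hlast
      exact ⟨fun i => c (Fin.last r) i.castSucc, hlast.symm⟩
    · intro a ha
      rw [← image_castSucc] at ha ⊢
      exact h1 i' a ha

end Poly

section Var

variable {σ : Type*} {k : Type*} [Field k] {ι : Type*} [Fintype ι]

open Classical in
/-- the substitution `X s ↦ 0` -/
noncomputable def kill (s : σ) : MvPolynomial σ k →ₐ[k] MvPolynomial σ k :=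
  aeval fun v => if v = s then 0 else X v

theorem kill_decomp (s : σ) (p : MvPolynomial σ k) :
    ∃ q, p = kill s p + X s * q := by
  classical
  induction p using MvPolynomial.induction_on with
  | C a => exact ⟨0, by simp [kill]⟩
  | add p q hp hq =>
    obtain ⟨p', hp'⟩ := hp
    obtain ⟨q', hq'⟩ := hq
    refine ⟨p' + q', ?_⟩
    rw [map_add]
    linear_combination hp' + hq'
  | mul_X p v hp =>
    obtain ⟨p', hp'⟩ := hp
    by_cases hv : v = s
    · subst hv
      refine ⟨p, ?_⟩
      rw [map_mul]
      simp [kill, mul_comm]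
    · refine ⟨p' * X v, ?_⟩
      have : kill s (X v : MvPolynomial σ k) = X v := by simp [kill, hv]
      rw [map_mul, this]
      linear_combination (X v) * hp'

/-- lifting along a variable -/
theorem H1.lift {f : ι → MvPolynomial σ k} {w : ι → ℕ} (hf : ∀ i, (f i).IsHomogeneous (w i))
    (s : σ) (h : H1 (fun i => kill s (f i))) : H1 f := by
  refine h1_of_step hf (X s) (by simp) fun a ha => ?_
  obtain ⟨c, hc, hce⟩ := h (fun i => kill s (a i)) (by
    have := congrArg (kill s) ha
    rw [map_zero, dotProduct, map_sum] at this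
    rw [dotProduct, ← this]
    exact Finset.sum_congr rfl fun i _ => (map_mul _ _ _).symm)
  choose q hq using fun i => kill_decomp s (a i)
  choose F hF using fun i => kill_decomp s (f i)
  have hkos : Kos f (c *ᵥ f) := ⟨c, hc, rfl⟩
  have hb : a - (X s : MvPolynomial σ k) • (q - c *ᵥ F) = c *ᵥ f := by
    funext i
    have h1 := congrFun hce i
    simp only [mulVec, dotProduct] at h1
    simp only [mulVec, dotProduct, Pi.sub_apply, Pi.smul_apply, smul_eq_mul]
    have h2 : ∑ j, c i j * f j = ∑ j, c i j * kill s (f j) + X s * ∑ j, c i j * F j := by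
      rw [Finset.mul_sum, ← Finset.sum_add_distrib]
      refine Finset.sum_congr rfl fun j _ => ?_
      linear_combination (c i j) * hF j
    rw [h2, ← h1]
    linear_combination hq i
  refine ⟨q - c *ᵥ F, ?_, by rw [hb]; exact hkos⟩
  have h3 : (X s : MvPolynomial σ k) * ((q - c *ᵥ F) ⬝ᵥ f) = 0 := by
    have h4 : ((X s : MvPolynomial σ k) • (q - c *ᵥ F)) ⬝ᵥ f = 0 := by
      have : (X s : MvPolynomial σ k) • (q - c *ᵥ F) = a - c *ᵥ f := by rw [← hb]; abel
      rw [this, sub_dotProduct, ha, hkos.rel, sub_zero]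
    rwa [smul_dotProduct, smul_eq_mul] at h4
  rcases mul_eq_zero.1 h3 with h5 | h5
  · exact absurd h5 (MvPolynomial.X_ne_zero (R := k) s)
  · exact h5

end Var

end Pool.Agent.H119.LSS
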