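import Mathlib

set_option autoImplicit false

/-!
# Sums of powers of matrices over finite rings: orbit lemma, conjugation
-/

namespace Pool.Agent.H119.MatPow

open Finset

/-- orbit lemma -/
theorem sum_orbit {α H M : Type*} [DecidableEq α] [AddGroup H] [Fintype H] [AddCommMonoid M]
    (t : H → α → α) (t0 : ∀ a, t 0 a = a) (tadd : ∀ h h' a, t (h + h') a = t h (t h' a))
    (F : α → M) (s : Finset α) (hs : ∀ a ∈ s, ∀ h, t h a ∈ s)
    (free : ∀ a ∈ s, ∀ h, t h a = a → h = 0) (hF : ∀ a ∈ s, ∑ h, F (t h a) = 0) :
    ∑ a ∈ s, F a = 0 := by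
  induction s using Finset.strongInduction with
  | H s ih =>
    rcases s.eq_empty_or_nonempty with rfl | ⟨a, ha⟩
    · simp
    · let O : Finset α := univ.image fun h => t h a
      have hO : O ⊆ s := by
        intro b hb
        obtain ⟨h, -, rfl⟩ := Finset.mem_image.1 hb
        exact hs a ha h
      have haO : a ∈ O := Finset.mem_image.2 ⟨0, Finset.mem_univ _, t0 a⟩
      have hinj : Function.Injective fun h => t h a := by
        intro h h' e
        have e' : t h a = t h' a := e
        have : t (-h' + h) a = a := by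
          rw [tadd, e', ← tadd, neg_add_cancel, t0]
        have h0 := free a ha _ this
        have := neg_add_eq_zero.1 h0
        exact this.symm
      have hsumO : ∑ b ∈ O, F b = 0 := by
        rw [Finset.sum_image fun x _ y _ e => hinj e]
        exact hF a ha
      rw [← Finset.sum_sdiff hO, hsumO, add_zero]
      refine ih (s \ O) ?_ ?_ ?_ ?_
      · refine Finset.ssubset_iff_subset_ne.2 ⟨Finset.sdiff_subset, fun e => ?_⟩
        have : a ∈ s \ O := by rw [e]; exact ha
        exact (Finset.mem_sdiff.1 this).2 haO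
      · intro b hb h
        obtain ⟨hb1, hb2⟩ := Finset.mem_sdiff.1 hb
        refine Finset.mem_sdiff.2 ⟨hs b hb1 h, fun hmem => hb2 ?_⟩
        obtain ⟨h', -, e⟩ := Finset.mem_image.1 hmem
        refine Finset.mem_image.2 ⟨-h + h', Finset.mem_univ _, ?_⟩
        rw [tadd, e, ← tadd, neg_add_cancel, t0]
      · intro b hb h e
        exact free b (Finset.mem_sdiff.1 hb).1 h e
      · intro b hb
        exact hF b (Finset.mem_sdiff.1 hb).1

/-- `q a k = a ^ (k + 1)` -/
def q {M : Type*} [Mul M] (a : M) : ℕ → M
  | 0 => a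
  | (k + 1) => q a k * a

theorem q_eq_pow {M : Type*} [Monoid M] (a : M) (k : ℕ) : q a k = a ^ (k + 1) := by
  induction k with
  | zero => simp [q]
  | succ k ih => rw [q, ih, ← pow_succ]

theorem map_q {M N : Type*} [Mul M] [Mul N] (f : M → N) (hf : ∀ x y, f (x * y) = f x * f y)
    (a : M) (k : ℕ) : f (q a k) = q (f a) k := by
  induction k with
  | zero => rfl
  | succ k ih => rw [q, q, hf, ih]

section Conj

variable {K R : Type*} [CommRing K] [NonUnitalRing R] [Module K R] [IsScalarTower K R R]
  [SMulCommClass K R R] {d : ℕ}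

/-- the embedding of matrices -/
def em (K : Type*) {R : Type*} [CommRing K] [NonUnitalRing R] [Module K R] [IsScalarTower K R R]
    [SMulCommClass K R R] {d : ℕ} (A : Matrix (Fin d) (Fin d) R) :
    Matrix (Fin d) (Fin d) (Unitization K R) := A.map (Unitization.inr)

theorem em_inj : Function.Injective (em K : Matrix (Fin d) (Fin d) R → _) := by
  intro A B h
  ext i j
  have := congrFun (congrFun h i) j
  exact Unitization.inr_injective this

theorem em_mul (A B : Matrix (Fin d) (Fin d) R) : em K (A * B) = em K A * em K B := by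
  refine Matrix.ext fun i j => ?_
  simp only [em, Matrix.mul_apply, Matrix.map_apply]
  have : ∀ (s : Finset (Fin d)) (f : Fin d → R), (Unitization.inr (∑ x ∈ s, f x) : Unitization K R)
      = ∑ x ∈ s, Unitization.inr (f x) := by
    intro s f
    exact map_sum (Unitization.inrNonUnitalAlgHom K R) f s
  rw [this]
  simp only [Unitization.inr_mul]

theorem em_q (A : Matrix (Fin d) (Fin d) R) (k : ℕ) : em K (q A k) = em K A ^ (k + 1) := by
  rw [map_q (em K) em_mul, q_eq_pow]

/-- `P A Q` -/
def cj (P Q : Matrix (Fin d) (Fin d) (Unitization K R)) (A : Matrix (Fin d) (Fin d) R) :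
    Matrix (Fin d) (Fin d) R := (P * em K A * Q).map fun x => x.snd

theorem em_cj (P Q : Matrix (Fin d) (Fin d) (Unitization K R)) (A : Matrix (Fin d) (Fin d) R) :
    em K (cj P Q A) = P * em K A * Q := by
  have h0 : (P * em K A * Q).map (Unitization.fstHom K R) = 0 := by
    rw [Matrix.map_mul, Matrix.map_mul]
    have : (em K A).map (Unitization.fstHom K R) = 0 := by
      ext i j; simp [em]
    rw [this]; simp
  refine Matrix.ext fun i j => ?_
  have h1 := congrFun (congrFun h0 i) j
  simp only [Matrix.map_apply, Unitization.fstHom_apply, Matrix.zero_apply] at h1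
  have h2 : em K (cj P Q A) i j = Unitization.inr ((P * em K A * Q) i j).snd := rfl
  rw [h2]
  apply Unitization.ext
  · rw [Unitization.fst_inr, h1]
  · rw [Unitization.snd_inr]

theorem cj_cj (P Q P' Q' : Matrix (Fin d) (Fin d) (Unitization K R)) (A : Matrix (Fin d) (Fin d) R) :
    cj P Q (cj P' Q' A) = cj (P * P') (Q' * Q) A := by
  apply em_inj (K := K)
  rw [em_cj, em_cj, em_cj]
  simp only [Matrix.mul_assoc]

theorem cj_one (A : Matrix (Fin d) (Fin d) R) :
    cj (1 : Matrix (Fin d) (Fin d) (Unitization K R)) 1 A = A := by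
  apply em_inj (K := K)
  rw [em_cj]; simp

theorem q_cj (P Q : Matrix (Fin d) (Fin d) (Unitization K R)) (hQP : Q * P = 1)
    (A : Matrix (Fin d) (Fin d) R) (k : ℕ) : q (cj P Q A) k = cj P Q (q A k) := by
  induction k with
  | zero => rfl
  | succ k ih =>
    rw [q, q, ih]
    apply em_inj (K := K)
    rw [em_mul, em_cj, em_cj, em_cj, em_mul]
    have : P * em K (q A k) * Q * (P * em K A * Q) = P * em K (q A k) * (Q * P) * em K A * Q := by
      simp only [Matrix.mul_assoc]
    rw [this, hQP]
    simp only [Matrix.mul_assoc, Matrix.one_mul]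

/-- the transvection `1 + x E_ij` -/
def P (i j : Fin d) (x : Unitization K R) : Matrix (Fin d) (Fin d) (Unitization K R) :=
  1 + Matrix.single i j x

theorem P_add (i j : Fin d) (hij : i ≠ j) (x y : Unitization K R) :
    P i j (x + y) = P i j x * P i j y := by
  have : Matrix.single i j x * Matrix.single i j y = 0 := by
    rw [Matrix.single_mul_single_of_ne]
    exact hij.symm
  simp only [P, Matrix.add_mul, Matrix.mul_add, Matrix.mul_one, Matrix.one_mul, this,
    Matrix.single_add]
  abel

theorem P_zero (i j : Fin d) : P i j (0 : Unitization K R) = 1 := by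
  simp [P]

/-- the conjugation -/
def tv (i j : Fin d) (x : Unitization K R) (A : Matrix (Fin d) (Fin d) R) :
    Matrix (Fin d) (Fin d) R := cj (P i j x) (P i j (-x)) A

theorem tv_zero (i j : Fin d) (A : Matrix (Fin d) (Fin d) R) :
    tv i j (0 : Unitization K R) A = A := by
  rw [tv, neg_zero, P_zero, cj_one]

theorem tv_add (i j : Fin d) (hij : i ≠ j) (x y : Unitization K R)
    (A : Matrix (Fin d) (Fin d) R) : tv i j (x + y) A = tv i j x (tv i j y A) := by
  rw [tv, tv, tv, cj_cj, ← P_add _ _ hij, ← P_add _ _ hij]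
  congr 2
  abel

theorem q_tv (i j : Fin d) (hij : i ≠ j) (x : Unitization K R) (A : Matrix (Fin d) (Fin d) R)
    (k : ℕ) : q (tv i j x A) k = tv i j x (q A k) := by
  refine q_cj _ _ ?_ A k
  rw [← P_add _ _ hij, neg_add_cancel, P_zero]

theorem em_tv (i j : Fin d) (x : Unitization K R) (A : Matrix (Fin d) (Fin d) R) (s u : Fin d) :
    (Unitization.inr (tv i j x A s u) : Unitization K R) =
      (Unitization.inr (A s u) : Unitization K R)
      + (if s = i then x * Unitization.inr (A j u) else 0)
      - (if u = j then Unitization.inr (A s i) * x else 0)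
      - (if s = i ∧ u = j then x * Unitization.inr (A j i) * x else 0) := by
  have h := congrFun (congrFun (em_cj (P i j x) (P i j (-x)) A) s) u
  have e : (em K (cj (P i j x) (P i j (-x)) A)) s u = Unitization.inr (tv i j x A s u) := rfl
  rw [e] at h
  rw [h, P, P]
  rw [Matrix.add_mul, Matrix.mul_add, Matrix.mul_one, Matrix.one_mul, Matrix.add_mul]
  simp only [Matrix.add_apply]
  have h1 : (Matrix.single i j x * em K A) s u = if s = i then x * em K A j u else 0 := by
    by_cases hs : s = i
    · subst hs; rw [if_pos rfl, Matrix.single_mul_apply_same]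
    · rw [if_neg hs, Matrix.single_mul_apply_of_ne _ _ _ _ _ hs]
  have h2 : ∀ B : Matrix (Fin d) (Fin d) (Unitization K R),
      (B * Matrix.single i j (-x)) s u = if u = j then - (B s i * x) else 0 := by
    intro B
    by_cases hs : u = j
    · subst hs; rw [if_pos rfl, Matrix.mul_single_apply_same, mul_neg]
    · rw [if_neg hs, Matrix.mul_single_apply_of_ne _ _ _ _ _ hs]
  have h3 : (Matrix.single i j x * em K A) s i = if s = i then x * em K A j i else 0 := by
    by_cases hs : s = i
    · subst hs; rw [if_pos rfl, Matrix.single_mul_apply_same]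
    · rw [if_neg hs, Matrix.single_mul_apply_of_ne _ _ _ _ _ hs]
  rw [h2, h2, h1, h3]
  have e2 : ∀ a b, em K A a b = Unitization.inr (A a b) := fun a b => rfl
  simp only [e2]
  by_cases hs : s = i <;> by_cases hu : u = j <;> simp [hs, hu] <;> abel

end Conj

end Pool.Agent.H119.MatPow
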