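import Mathlib
import Pool.Agent.H119.MatPow1

set_option autoImplicit false

/-!
# Sums of powers of matrices over finite rings: vanishing in characteristic `p`
-/

namespace Pool.Agent.H119.MatPow

open Finset

/-- the sum of the `(k+1)`-th powers of all `d × d` matrices -/
noncomputable def S (R : Type*) [NonUnitalRing R] [Finite R] (d k : ℕ) :
    Matrix (Fin d) (Fin d) R :=
  letI := Fintype.ofFinite (Matrix (Fin d) (Fin d) R)
  ∑ A, q A k

theorem S_eq {R : Type*} [NonUnitalRing R] [Finite R] (d k : ℕ)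
    [Fintype (Matrix (Fin d) (Fin d) R)] : S R d k = ∑ A : Matrix (Fin d) (Fin d) R, q A k := by
  unfold S
  congr 1
  exact congrArg (@Finset.univ _) (Subsingleton.elim _ _)

section Conj

variable {K R : Type*} [CommRing K] [NonUnitalRing R] [Module K R] [IsScalarTower K R R]
  [SMulCommClass K R R] {d : ℕ}

theorem em_add (A B : Matrix (Fin d) (Fin d) R) : em K (A + B) = em K A + em K B := by
  refine Matrix.ext fun i j => ?_
  simp only [em, Matrix.add_apply, Matrix.map_apply, Unitization.inr_add]

theorem cj_add (P Q : Matrix (Fin d) (Fin d) (Unitization K R)) (A B : Matrix (Fin d) (Fin d) R) :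
    cj P Q (A + B) = cj P Q A + cj P Q B := by
  apply em_inj (K := K)
  rw [em_add, em_cj, em_cj, em_cj, em_add, Matrix.mul_add, Matrix.add_mul]

theorem tv_sum {κ : Type*} (i j : Fin d) (x : Unitization K R) (s : Finset κ)
    (f : κ → Matrix (Fin d) (Fin d) R) : tv i j x (∑ a ∈ s, f a) = ∑ a ∈ s, tv i j x (f a) := by
  let g : Matrix (Fin d) (Fin d) R →+ Matrix (Fin d) (Fin d) R :=
    AddMonoidHom.mk' (tv i j x) fun A B => cj_add _ _ A B
  exact map_sum g f s

theorem tv_inl (i j : Fin d) (h : K) (A : Matrix (Fin d) (Fin d) R) (s u : Fin d) :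
    tv i j (Unitization.inl h : Unitization K R) A s u = A s u + (if s = i then h • A j u else 0)
      - (if u = j then h • A s i else 0) - (if s = i ∧ u = j then h • h • A j i else 0) := by
  apply Unitization.inr_injective (R := K)
  rw [em_tv]
  by_cases hs : s = i <;> by_cases hu : u = j <;>
    simp [hs, hu, Unitization.inr_add, Unitization.inr_sub, Unitization.inl_mul_inr,
      Unitization.inr_mul_inl]

theorem tv_inr (i j : Fin d) (h : R) (A : Matrix (Fin d) (Fin d) R) (s u : Fin d) :
    tv i j (Unitization.inr h : Unitization K R) A s u = A s u + (if s = i then h * A j u else 0)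
      - (if u = j then A s i * h else 0) - (if s = i ∧ u = j then h * A j i * h else 0) := by
  apply Unitization.inr_injective (R := K)
  rw [em_tv]
  by_cases hs : s = i <;> by_cases hu : u = j <;>
    simp [hs, hu, Unitization.inr_add, Unitization.inr_sub, Unitization.inr_mul]

end Conj

section Scalar

variable {R : Type*} [NonUnitalRing R] [Finite R] {d : ℕ}

theorem S_inv (k : ℕ) (i j : Fin d) (hij : i ≠ j) :
    tv i j (Unitization.inl 1 : Unitization ℤ R) (S R d k) = S R d k := by
  classical
  let _ := Fintype.ofFinite (Matrix (Fin d) (Fin d) R)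
  rw [S_eq, tv_sum]
  let e : Matrix (Fin d) (Fin d) R ≃ Matrix (Fin d) (Fin d) R :=
    { toFun := tv i j (Unitization.inl 1 : Unitization ℤ R)
      invFun := tv i j (-(Unitization.inl 1 : Unitization ℤ R))
      left_inv := fun A => by rw [← tv_add _ _ hij, neg_add_cancel, tv_zero]
      right_inv := fun A => by rw [← tv_add _ _ hij, add_neg_cancel, tv_zero] }
  refine Fintype.sum_equiv e _ _ fun A => ?_
  exact (q_tv i j hij _ A k).symm

theorem S_off (k : ℕ) (i j : Fin d) (hij : i ≠ j) : S R d k j i = 0 := by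
  have h := congrFun (congrFun (S_inv (R := R) k i j hij) i) i
  rw [tv_inl] at h
  simpa [hij] using h

theorem S_diag (k : ℕ) (i j : Fin d) : S R d k i i = S R d k j j := by
  by_cases hij : i = j
  · rw [hij]
  have h := congrFun (congrFun (S_inv (R := R) k i j hij) i) j
  rw [tv_inl] at h
  simp only [if_true, and_self, one_smul, S_off k i j hij, sub_zero] at h
  have h2 : S R d k j j - S R d k i i = 0 := by
    have : S R d k i j + S R d k j j - S R d k i i = S R d k i j := h
    rw [add_sub_assoc] at this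
    exact add_eq_left.1 this
  exact (sub_eq_zero.1 h2).symm

theorem S_ext (k : ℕ) (i : Fin d) (A : Matrix (Fin d) (Fin d) R) (hA : ∀ s u, s ≠ u → A s u = 0)
    (hA' : ∀ s, A s s = A i i) (h : S R d k i i = A i i) : S R d k = A := by
  ext s u
  by_cases hs : s = u
  · subst hs; rw [hA', S_diag k s i, h]
  · rw [hA s u hs, S_off k u s (fun e => hs e.symm)]

end Scalar

/-- independence of an entry -/
theorem indep {R : Type*} [NonUnitalRing R] {d : ℕ} (i j : Fin d) (A : Matrix (Fin d) (Fin d) R)
    (hA : ∀ u, u ≠ j → A j u = 0) (x : R) (k : ℕ) :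
    ∀ s u, u ≠ j → (q (A + Matrix.single i j x) k) s u = (q A k) s u := by
  have h0 : ∀ s u, u ≠ j → (A + Matrix.single i j x) s u = A s u := by
    intro s u hu
    rw [Matrix.add_apply, Matrix.single_apply_of_col_ne _ _ hu.symm, add_zero]
  induction k with
  | zero => exact h0
  | succ k ih =>
    intro s u hu
    rw [q, q, Matrix.mul_apply, Matrix.mul_apply]
    refine Finset.sum_congr rfl fun l _ => ?_
    rw [h0 l u hu]
    by_cases hl : l = j
    · rw [hl, hA u hu, mul_zero, mul_zero]
    · rw [ih s l hl]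

/-- the part with a zero row -/
theorem sum_row {R : Type*} [NonUnitalRing R] [Fintype R] [DecidableEq R] {d : ℕ}
    (i j : Fin d) (hij : i ≠ j) (k : ℕ)
    (s : Finset (Matrix (Fin d) (Fin d) R)) (hs : ∀ A ∈ s, ∀ u, u ≠ j → A j u = 0)
    (hs' : ∀ A ∈ s, ∀ x, A + Matrix.single i j x ∈ s) (z : Fin d) (hz : z ≠ j) :
    ∑ A ∈ s, (q A k) z z = 0 := by
  refine sum_orbit (fun (x : R) (A : Matrix (Fin d) (Fin d) R) => A + Matrix.single i j x)
    (fun A => by simp) ?_ (fun A => (q A k) z z) s ?_ ?_ ?_
  · intro x y A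
    show A + Matrix.single i j (x + y) = A + Matrix.single i j y + Matrix.single i j x
    rw [Matrix.single_add]; abel
  · intro A hA x; exact hs' A hA x
  · intro A _ x h
    have := congrFun (congrFun h i) j
    simpa using this
  · intro A hA
    have : ∀ x : R, (q (A + Matrix.single i j x) k) z z = (q A k) z z := fun x =>
      indep i j A (hs A hA) x k z z hz
    rw [Finset.sum_congr rfl fun x _ => this x, Finset.sum_const, Finset.card_univ]
    exact card_nsmul_eq_zero

section CharP

variable {R : Type*} [NonUnitalRing R] [Finite R] (p : ℕ) [Fact p.Prime] [Module (ZMod p) R]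
  [IsScalarTower (ZMod p) R R] [SMulCommClass (ZMod p) R R]

theorem p_smul (x : R) : p • x = 0 := by
  rw [← Nat.cast_smul_eq_nsmul (ZMod p), ZMod.natCast_self, zero_smul]

include p in
theorem S_three (d : ℕ) (hd : 3 ≤ d) (k : ℕ) : S R d k = 0 := by
  classical
  letI := Fintype.ofFinite R
  let i0 : Fin d := ⟨0, by omega⟩
  let i1 : Fin d := ⟨1, by omega⟩
  let i2 : Fin d := ⟨2, by omega⟩
  have h01 : i0 ≠ i1 := by simp [i0, i1]
  have h02 : i0 ≠ i2 := by simp [i0, i2]
  have h12 : i1 ≠ i2 := by simp [i1, i2]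
  refine S_ext k i0 0 (fun _ _ _ => rfl) (fun _ => rfl) ?_
  rw [S_eq, Matrix.sum_apply]
  rw [← Finset.sum_filter_add_sum_filter_not Finset.univ
    (fun A : Matrix (Fin d) (Fin d) R => ∀ u, u ≠ i2 → A i2 u = 0)]
  have e1 : ∑ A ∈ Finset.univ.filter
      (fun A : Matrix (Fin d) (Fin d) R => ∀ u, u ≠ i2 → A i2 u = 0), (q A k) i0 i0 = 0 := by
    refine sum_row i0 i2 h02 k _ (fun A hA => (Finset.mem_filter.1 hA).2) ?_ i0 h02
    intro A hA x
    refine Finset.mem_filter.2 ⟨Finset.mem_univ _, fun u hu => ?_⟩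
    rw [Matrix.add_apply, (Finset.mem_filter.1 hA).2 u hu,
      Matrix.single_apply_of_col_ne _ _ hu.symm, add_zero]
  have e2 : ∑ A ∈ Finset.univ.filter
      (fun A : Matrix (Fin d) (Fin d) R => ¬ ∀ u, u ≠ i2 → A i2 u = 0), (q A k) i0 i0 = 0 := by
    refine sum_orbit (fun (h : ZMod p) A => tv i1 i2 (Unitization.inl h : Unitization (ZMod p) R) A)
      ?_ ?_ _ _ ?_ ?_ ?_
    · intro A; rw [Unitization.inl_zero, tv_zero]
    · intro h h' A; rw [Unitization.inl_add, tv_add _ _ h12]
    · intro A hA h
      refine Finset.mem_filter.2 ⟨Finset.mem_univ _, fun hc => (Finset.mem_filter.1 hA).2 ?_⟩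
      intro u hu
      have := hc u hu
      rw [tv_inl] at this
      simpa [hu, h12.symm] using this
    · intro A hA h e
      have hA' := (Finset.mem_filter.1 hA).2
      push Not at hA'
      obtain ⟨u, hu, hne⟩ := hA'
      have := congrFun (congrFun e i1) u
      rw [tv_inl] at this
      simp only [if_true, if_neg hu, hu, and_false, if_false, sub_zero] at this
      rcases smul_eq_zero.1 (add_eq_left.1 this) with h0 | h0
      · exact h0
      · exact absurd h0 hne
    · intro A _
      have : ∀ h : ZMod p, (q (tv i1 i2 (Unitization.inl h : Unitization (ZMod p) R) A) k) i0 i0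
          = (q A k) i0 i0 := by
        intro h
        rw [q_tv _ _ h12, tv_inl]
        simp [h01, h02]
      rw [Finset.sum_congr rfl fun h _ => this h, Finset.sum_const, Finset.card_univ, ZMod.card]
      exact p_smul p _
  rw [e1, e2]; simp

/-- good elements -/
def Good (c : R) : Prop :=
  ∃ (H : Type) (_ : AddGroup H) (_ : Fintype H) (ψ : H →+ R), (∀ h, c * ψ h = 0 → h = 0) ∧
    ∀ x y : R, ∑ h, (x + ψ h * y) = 0

include p in
theorem S_two (k : ℕ) (hgood : ∀ c : R, c ≠ 0 → Good c) : S R 2 k = 0 := by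
  classical
  letI := Fintype.ofFinite R
  have h01 : (0 : Fin 2) ≠ 1 := by decide
  refine S_ext k 0 0 (fun _ _ _ => rfl) (fun _ => rfl) ?_
  rw [S_eq, Matrix.sum_apply]
  rw [← Finset.sum_fiberwise Finset.univ (fun A : Matrix (Fin 2) (Fin 2) R => A 1 0)]
  refine Finset.sum_eq_zero fun c _ => ?_
  by_cases hc : c = 0
  · subst hc
    refine sum_row 0 1 h01 k _ ?_ ?_ 0 h01
    · intro A hA u hu
      have : u = 0 := by omega
      rw [this]; exact (Finset.mem_filter.1 hA).2
    · intro A hA x
      refine Finset.mem_filter.2 ⟨Finset.mem_univ _, ?_⟩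
      rw [Matrix.add_apply, (Finset.mem_filter.1 hA).2]
      simp
  · obtain ⟨H, _, _, ψ, hψ, hsum⟩ := hgood c hc
    refine sum_orbit (fun (h : H) A => tv 0 1 (Unitization.inr (ψ h) : Unitization (ZMod p) R) A)
      ?_ ?_ _ _ ?_ ?_ ?_
    · intro A; rw [map_zero, Unitization.inr_zero, tv_zero]
    · intro h h' A; rw [map_add, Unitization.inr_add, tv_add _ _ h01]
    · intro A hA h
      refine Finset.mem_filter.2 ⟨Finset.mem_univ _, ?_⟩
      rw [tv_inr, (Finset.mem_filter.1 hA).2]
      simp
    · intro A hA h e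
      have := congrFun (congrFun e 1) 1
      rw [tv_inr, (Finset.mem_filter.1 hA).2] at this
      simp only [if_true, h01.symm, if_false, false_and, sub_zero, add_zero] at this
      refine hψ h ?_
      exact sub_eq_self.1 this
    · intro A _
      have : ∀ h : H, (q (tv 0 1 (Unitization.inr (ψ h) : Unitization (ZMod p) R) A) k) 0 0
          = (q A k) 0 0 + ψ h * (q A k) 1 0 := by
        intro h
        rw [q_tv _ _ h01, tv_inr]
        simp
      rw [Finset.sum_congr rfl fun h _ => this h]
      exact hsum _ _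

theorem good_odd (hp : p ≠ 2) (c : R) (hc : ∃ h, c * h ≠ 0) : Good c := by
  obtain ⟨h0, hh⟩ := hc
  let ψ : ZMod p →+ R := AddMonoidHom.mk' (fun j => j • h0) fun a b => add_smul a b h0
  refine ⟨ZMod p, inferInstance, inferInstance, ψ, fun j hj => ?_, fun x y => ?_⟩
  · have : c * (j • h0) = 0 := hj
    rw [mul_smul_comm] at this
    rcases smul_eq_zero.1 this with h | h
    · exact h
    · exact absurd h hh
  · rw [Finset.sum_add_distrib, Finset.sum_const, Finset.card_univ, ZMod.card, p_smul, zero_add,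
      ← Finset.sum_mul]
    have h1 : ∑ j : ZMod p, ψ j = (∑ j : ZMod p, j) • h0 := by
      rw [Finset.sum_smul]; rfl
    have h2 : ∑ j : ZMod p, j = 0 := by
      have h3 : ∑ j : ZMod p, j = ∑ j : ZMod p, -j :=
        (Fintype.sum_equiv (Equiv.neg _) _ _ fun j => rfl).symm
      rw [Finset.sum_neg_distrib] at h3
      have h4 : (2 : ZMod p) * ∑ j : ZMod p, j = 0 := by
        rw [two_mul]; nth_rewrite 1 [h3]; rw [neg_add_cancel]
      rcases mul_eq_zero.1 h4 with h | h
      · exfalso
        have : (p : ℕ) ∣ 2 := (ZMod.natCast_eq_zero_iff 2 p).1 (by exact_mod_cast h)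
        exact hp ((Nat.prime_dvd_prime_iff_eq Fact.out Nat.prime_two).1 this)
      · exact h
    rw [h1, h2, zero_smul, zero_mul]

end CharP

theorem good_two {R : Type*} [NonUnitalRing R] (h2 : ∀ x : R, x + x = 0) (c x1 x2 : R)
    (h1 : c * x1 ≠ 0) (h2' : c * x2 ≠ 0) (h12 : c * x1 ≠ c * x2) : Good c := by
  have hb : ∀ a b : ZMod 2, ∀ x : R, ((a + b).val : ℕ) • x = a.val • x + b.val • x := by
    intro a b x
    have hv : (a + b).val = (a.val + b.val) % 2 := ZMod.val_add a b
    have ha : a.val < 2 := ZMod.val_lt a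
    have hb : b.val < 2 := ZMod.val_lt b
    have ha' : a.val = 0 ∨ a.val = 1 := by omega
    have hb' : b.val = 0 ∨ b.val = 1 := by omega
    rw [hv]
    rcases ha' with h | h <;> rcases hb' with h' | h' <;> simp [h, h', h2]
  let ψ : ZMod 2 × ZMod 2 →+ R := AddMonoidHom.mk' (fun j => j.1.val • x1 + j.2.val • x2) (by
    rintro ⟨a, b⟩ ⟨a', b'⟩
    show (a + a').val • x1 + (b + b').val • x2 = (a.val • x1 + b.val • x2) + (a'.val • x1 + b'.val • x2)
    rw [hb, hb]; abel)
  have hψ : ∀ a b : ZMod 2, ψ (a, b) = a.val • x1 + b.val • x2 := fun a b => rfl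
  refine ⟨ZMod 2 × ZMod 2, inferInstance, inferInstance, ψ, ?_, ?_⟩
  · rintro ⟨a, b⟩ h
    rw [hψ] at h
    fin_cases a <;> fin_cases b
    · rfl
    · simp [ZMod.val] at h
      exact absurd h h2'
    · simp [ZMod.val] at h
      exact absurd h h1
    · simp [ZMod.val, mul_add] at h
      exfalso; apply h12
      have := h2 (c * x2)
      exact add_right_cancel (h.trans this.symm)
  · intro x y
    rw [Fintype.sum_prod_type]
    have hs : ∀ f : ZMod 2 → R, ∑ a, f a = f 0 + f 1 := fun f => Fin.sum_univ_two f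
    rw [hs, hs, hs]
    simp only [hψ, ZMod.val_zero, zero_smul, zero_add, zero_mul, add_zero, ZMod.val_one, one_smul,
      add_mul]
    have e : x + (x + x2 * y) + (x + x1 * y + (x + (x1 * y + x2 * y)))
        = (x + x) + (x + x) + (x1 * y + x1 * y) + (x2 * y + x2 * y) := by abel
    rw [e]; simp [h2]

end Pool.Agent.H119.MatPow
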