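import Mathlib
import Pool.Agent.H119.MatPow2

set_option autoImplicit false

/-!
# Sums of powers of matrices over finite rings: ideals and quotients
-/

namespace Pool.Agent.H119.MatPow

open Finset

universe u

/-- two-sided ideals -/
def IsIdl {R : Type*} [NonUnitalRing R] (I : AddSubgroup R) : Prop :=
  ∀ x ∈ I, ∀ r : R, r * x ∈ I ∧ x * r ∈ I

theorem exists_quot {R : Type u} [NonUnitalRing R] (I : AddSubgroup R) (hI : IsIdl I) :
    ∃ (T : Type u) (_ : NonUnitalRing T) (f : R →ₙ+* T), Function.Surjective f ∧
      ∀ x, f x = 0 ↔ x ∈ I := by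
  let J : TwoSidedIdeal R := TwoSidedIdeal.mk' (I : Set R) I.zero_mem (fun h h' => I.add_mem h h')
    (fun h => I.neg_mem h) (fun {x y} h => (hI y h x).1) (fun {x y} h => (hI x h y).2)
  have hJ : ∀ x, x ∈ J ↔ x ∈ I := fun x => TwoSidedIdeal.mem_mk' _ _ _ _ _ _ _
  let f : R →ₙ+* J.ringCon.Quotient :=
    { toFun := fun x => (x : J.ringCon.Quotient)
      map_mul' := fun x y => RingCon.coe_mul _ x y
      map_zero' := RingCon.coe_zero _
      map_add' := fun x y => RingCon.coe_add _ x y }
  refine ⟨J.ringCon.Quotient, inferInstance, f, ?_, ?_⟩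
  · intro y
    obtain ⟨x, rfl⟩ := Quotient.exists_rep y
    exact ⟨x, rfl⟩
  · intro x
    have h0 : f x = 0 ↔ (x : J.ringCon.Quotient) = ((0 : R) : J.ringCon.Quotient) := Iff.rfl
    rw [h0, RingCon.eq, J.rel_iff, sub_zero, hJ]

section Fib

variable {R T : Type*} [NonUnitalRing R] [NonUnitalRing T] [Finite R] [Finite T] {d : ℕ}
  (f : R →ₙ+* T)

/-- the kernel -/
def kr : AddSubgroup R := (f : R →+ T).ker

theorem mem_kr (x : R) : x ∈ kr f ↔ f x = 0 := Iff.rfl

theorem kr_idl : IsIdl (kr f) := by
  intro x hx r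
  rw [mem_kr] at hx
  constructor
  · rw [mem_kr, map_mul, hx, mul_zero]
  · rw [mem_kr, map_mul, hx, zero_mul]

/-- number of matrices over the kernel -/
noncomputable def nk (d : ℕ) : ℕ := Nat.card (kr f) ^ (d * d)

open Classical in
theorem card_ker [Fintype (Matrix (Fin d) (Fin d) R)] :
    (Finset.univ.filter fun N : Matrix (Fin d) (Fin d) R => N.map f = 0).card = nk f d := by
  have e : {N : Matrix (Fin d) (Fin d) R // N.map f = 0} ≃ (Fin d × Fin d → kr f) :=
    { toFun := fun N ij => ⟨N.1 ij.1 ij.2, congrFun (congrFun N.2 ij.1) ij.2⟩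
      invFun := fun g => ⟨Matrix.of fun i j => (g (i, j)).1, by
        ext i j; exact (g (i, j)).2⟩
      left_inv := fun N => by ext i j; rfl
      right_inv := fun g => by funext ij; rfl }
  rw [nk, ← Fintype.card_subtype, ← Nat.card_eq_fintype_card, Nat.card_congr e, Nat.card_fun]
  simp

theorem map_sum' (κ : Type*) (s : Finset κ) (g : κ → Matrix (Fin d) (Fin d) R) :
    (∑ a ∈ s, g a).map f = ∑ a ∈ s, (g a).map f := by
  ext i j
  simp only [Matrix.map_apply, Matrix.sum_apply, map_sum]

theorem map_q' (A : Matrix (Fin d) (Fin d) R) (k : ℕ) : (q A k).map f = q (A.map f) k := by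
  refine map_q (fun A : Matrix (Fin d) (Fin d) R => A.map f) (fun A B => ?_) A k
  ext i j
  simp only [Matrix.map_apply, Matrix.mul_apply, map_sum, map_mul]

variable (hf : Function.Surjective f)
include hf

open Classical in
theorem card_fib [Fintype (Matrix (Fin d) (Fin d) R)] (B : Matrix (Fin d) (Fin d) T) :
    (Finset.univ.filter fun A : Matrix (Fin d) (Fin d) R => A.map f = B).card = nk f d := by
  choose s hs using hf
  rw [← card_ker f]
  have hB : (B.map s).map f = B := by ext i j; simp [hs]
  refine Finset.card_bij' (fun A _ => A - B.map s) (fun N _ => N + B.map s) ?_ ?_ ?_ ?_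
  · intro A hA
    rw [Finset.mem_filter] at hA ⊢
    refine ⟨Finset.mem_univ _, ?_⟩
    ext i j
    have h1 := congrFun (congrFun hA.2 i) j
    have h2 := congrFun (congrFun hB i) j
    simp only [Matrix.map_apply, Matrix.sub_apply, map_sub, Matrix.zero_apply] at h1 h2 ⊢
    rw [h1, h2, sub_self]
  · intro N hN
    rw [Finset.mem_filter] at hN ⊢
    refine ⟨Finset.mem_univ _, ?_⟩
    ext i j
    have h1 := congrFun (congrFun hN.2 i) j
    have h2 := congrFun (congrFun hB i) j
    simp only [Matrix.map_apply, Matrix.add_apply, map_add, Matrix.zero_apply] at h1 h2 ⊢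
    rw [h1, h2, zero_add]
  · intro A _; abel
  · intro A _; abel

/-- the image of the power sum -/
theorem map_S (k : ℕ) : (S R d k).map f = nk f d • S T d k := by
  classical
  let _ := Fintype.ofFinite R
  let _ := Fintype.ofFinite T
  rw [S_eq, S_eq, map_sum', Finset.sum_congr rfl fun A _ => map_q' f A k]
  rw [← Finset.sum_fiberwise Finset.univ (fun A : Matrix (Fin d) (Fin d) R => A.map f)]
  rw [Finset.smul_sum]
  refine Finset.sum_congr rfl fun B _ => ?_
  rw [Finset.sum_congr rfl (g := fun _ => q B k) fun A hA => by rw [(Finset.mem_filter.1 hA).2]]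
  rw [Finset.sum_const]
  congr 1
  convert card_fib f hf B

/-- square-zero kernels -/
theorem S_sqzero (k : ℕ) (hd : 2 ≤ d) (h0 : ∀ x ∈ kr f, ∀ y ∈ kr f, x * y = 0) :
    ∃ X : Matrix (Fin d) (Fin d) R, S R d k = nk f d • X ∧ X.map f = S T d k := by
  classical
  let _ := Fintype.ofFinite R
  let _ := Fintype.ofFinite T
  choose s hs using hf
  have hB : ∀ B : Matrix (Fin d) (Fin d) T, (B.map s).map f = B := by
    intro B; ext i j; simp [hs]
  let Kf : Finset (Matrix (Fin d) (Fin d) R) := Finset.univ.filter fun N => N.map f = 0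
  have hKf : ∀ N, N ∈ Kf ↔ ∀ i j, N i j ∈ kr f := by
    intro N
    rw [Finset.mem_filter]
    constructor
    · rintro ⟨-, h⟩ i j
      exact congrFun (congrFun h i) j
    · intro h
      exact ⟨Finset.mem_univ _, by ext i j; exact h i j⟩
  -- sum of the kernel
  have hsum0 : ∑ N ∈ Kf, N = 0 := by
    ext i j
    rw [Matrix.sum_apply, Matrix.zero_apply]
    obtain ⟨i', hi'⟩ : ∃ i' : Fin d, i' ≠ i := by
      haveI : Nontrivial (Fin d) := Fin.nontrivial_iff_two_le.2 hd
      exact exists_ne i
    let _ := Fintype.ofFinite (kr f)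
    refine sum_orbit (fun (x : kr f) (A : Matrix (Fin d) (Fin d) R) => A + Matrix.single i' j x.1)
      (fun A => by simp) ?_ (fun N => N i j) Kf ?_ ?_ ?_
    · intro x y A
      show A + Matrix.single i' j (x.1 + y.1) = A + Matrix.single i' j y.1 + Matrix.single i' j x.1
      rw [Matrix.single_add]; abel
    · intro A hA x
      rw [hKf] at hA ⊢
      intro a b
      rw [Matrix.add_apply]
      refine add_mem (hA a b) ?_
      rw [Matrix.single_apply]
      split
      · exact x.2
      · exact zero_mem _
    · intro A _ x h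
      have := congrFun (congrFun h i') j
      apply Subtype.ext
      simpa using this
    · intro A hA
      have : ∀ x : kr f, (A + Matrix.single i' j x.1) i j = A i j := by
        intro x
        rw [Matrix.add_apply, Matrix.single_apply_of_row_ne hi', add_zero]
      rw [Finset.sum_congr rfl fun x _ => this x, Finset.sum_const, Finset.card_univ,
        ← Nat.card_eq_fintype_card]
      have h1 : Nat.card (kr f) • (⟨A i j, (hKf A).1 hA i j⟩ : kr f) = 0 := card_nsmul_eq_zero'
      exact congrArg Subtype.val h1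
  have hexp : ∀ (A : Matrix (Fin d) (Fin d) R) (k : ℕ),
      ∑ N ∈ Kf, q (A + N) k = Kf.card • q A k := by
    intro A k
    let D : Matrix (Fin d) (Fin d) R → ℕ → Matrix (Fin d) (Fin d) R := fun N k =>
      Nat.rec N (fun m D => D * A + q A m * N) k
    have hD0 : ∀ N, D N 0 = N := fun N => rfl
    have hD1 : ∀ N m, D N (m + 1) = D N m * A + q A m * N := fun N m => rfl
    have hmul : ∀ (N M : Matrix (Fin d) (Fin d) R), (∀ i j, N i j ∈ kr f) →
        (∀ i j, (N * M) i j ∈ kr f ∧ (M * N) i j ∈ kr f) := by
      intro N M hN i j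
      rw [Matrix.mul_apply, Matrix.mul_apply]
      exact ⟨sum_mem fun l _ => (kr_idl f _ (hN i l) _).2, sum_mem fun l _ => (kr_idl f _ (hN l j) _).1⟩
    have hDm : ∀ N, N ∈ Kf → ∀ m, ∀ i j, D N m i j ∈ kr f := by
      intro N hN m
      induction m with
      | zero => exact (hKf N).1 hN
      | succ m ih =>
        intro i j
        rw [hD1, Matrix.add_apply]
        exact add_mem (hmul _ _ ih i j).1 (hmul N _ ((hKf N).1 hN) i j).2
    have hq : ∀ N, N ∈ Kf → ∀ m, q (A + N) m = q A m + D N m := by
      intro N hN m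
      induction m with
      | zero => rfl
      | succ m ih =>
        rw [q, q, ih, hD1]
        have hz : D N m * N = 0 := by
          ext i j
          rw [Matrix.mul_apply]
          exact Finset.sum_eq_zero fun l _ => h0 _ (hDm N hN m i l) _ ((hKf N).1 hN l j)
        rw [Matrix.add_mul, Matrix.mul_add, Matrix.mul_add, hz]
        abel
    have hDs : ∀ m, ∑ N ∈ Kf, D N m = 0 := by
      intro m
      induction m with
      | zero => exact hsum0
      | succ m ih =>
        rw [Finset.sum_congr rfl fun N _ => hD1 N m, Finset.sum_add_distrib, ← Finset.sum_mul,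
          ← Finset.mul_sum, ih, hsum0, zero_mul, mul_zero, add_zero]
    rw [Finset.sum_congr rfl fun N hN => hq N hN k, Finset.sum_add_distrib, hDs, add_zero,
      Finset.sum_const]
  refine ⟨∑ B : Matrix (Fin d) (Fin d) T, q (B.map s) k, ?_, ?_⟩
  · rw [S_eq, ← Finset.sum_fiberwise Finset.univ (fun A : Matrix (Fin d) (Fin d) R => A.map f),
      Finset.smul_sum]
    refine Finset.sum_congr rfl fun B _ => ?_
    have hc : Kf.card = nk f d := by
      rw [← card_ker f]
    rw [← hc, ← hexp]
    refine Finset.sum_bij' (fun A _ => A - B.map s) (fun N _ => B.map s + N) ?_ ?_ ?_ ?_ ?_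
    · intro A hA
      rw [Finset.mem_filter] at hA
      rw [hKf]
      intro i j
      have h1 := congrFun (congrFun hA.2 i) j
      have h2 := congrFun (congrFun (hB B) i) j
      simp only [Matrix.map_apply] at h1 h2
      rw [mem_kr, Matrix.sub_apply, map_sub, Matrix.map_apply, h1, h2, sub_self]
    · intro N hN
      rw [Finset.mem_filter]
      refine ⟨Finset.mem_univ _, ?_⟩
      rw [hKf] at hN
      ext i j
      have h1 := hN i j
      rw [mem_kr] at h1
      have h2 := congrFun (congrFun (hB B) i) j
      simp only [Matrix.map_apply] at h2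
      rw [Matrix.map_apply, Matrix.add_apply, map_add, Matrix.map_apply, h1, h2, add_zero]
    · intro A _; abel
    · intro A _; abel
    · intro A _
      congr 1; abel
  · rw [map_sum', S_eq]
    refine Finset.sum_congr rfl fun B _ => ?_
    rw [map_q', hB]

end Fib

end Pool.Agent.H119.MatPow
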