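import Mathlib
import Pool.Agent.H119.MatPow3

set_option autoImplicit false

/-!
# Sums of powers of matrices over finite rings: the ring with two elements, structure
-/

namespace Pool.Agent.H119.MatPow

open Finset

universe u

/-- the exponents `m` of the exceptional case -/
def Ex (m : ℕ) : Prop := 1 < m ∧ (m % 6 = 5 ∨ m % 6 = 0 ∨ m % 6 = 1)

instance (m : ℕ) : Decidable (Ex m) := by unfold Ex; infer_instance

theorem pow8 : ∀ A : Matrix (Fin 2) (Fin 2) (ZMod 2), A * A * A * A * A * A * A * A = A * A := by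
  decide +kernel

theorem sm0 : ∑ A : Matrix (Fin 2) (Fin 2) (ZMod 2), A = 0 := by decide +kernel

theorem sm1 : ∑ A : Matrix (Fin 2) (Fin 2) (ZMod 2), A * A = 0 := by decide +kernel

theorem sm2 : ∑ A : Matrix (Fin 2) (Fin 2) (ZMod 2), A * A * A = 0 := by decide +kernel

theorem sm3 : ∑ A : Matrix (Fin 2) (Fin 2) (ZMod 2), A * A * A * A = 0 := by decide +kernel

theorem sm4 : ∑ A : Matrix (Fin 2) (Fin 2) (ZMod 2), A * A * A * A * A = 1 := by decide +kernel

theorem sm5 : ∑ A : Matrix (Fin 2) (Fin 2) (ZMod 2), A * A * A * A * A * A = 1 := by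
  decide +kernel

theorem sm6 : ∑ A : Matrix (Fin 2) (Fin 2) (ZMod 2), A * A * A * A * A * A * A = 1 := by
  decide +kernel

theorem small (k : ℕ) (hk : k < 7) : ∑ A : Matrix (Fin 2) (Fin 2) (ZMod 2), A ^ (k + 1)
    = if Ex (k + 1) then 1 else 0 := by
  have e : k = 0 ∨ k = 1 ∨ k = 2 ∨ k = 3 ∨ k = 4 ∨ k = 5 ∨ k = 6 := by omega
  rcases e with rfl | rfl | rfl | rfl | rfl | rfl | rfl
  · rw [if_neg (by decide), ← sm0]; simp only [pow_succ, pow_zero, one_mul]
  · rw [if_neg (by decide), ← sm1]; simp only [pow_succ, pow_zero, one_mul]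
  · rw [if_neg (by decide), ← sm2]; simp only [pow_succ, pow_zero, one_mul]
  · rw [if_neg (by decide), ← sm3]; simp only [pow_succ, pow_zero, one_mul]
  · rw [if_pos (by decide), ← sm4]; simp only [pow_succ, pow_zero, one_mul]
  · rw [if_pos (by decide), ← sm5]; simp only [pow_succ, pow_zero, one_mul]
  · rw [if_pos (by decide), ← sm6]; simp only [pow_succ, pow_zero, one_mul]

theorem zc : ∀ a : ZMod 2, a = 0 ∨ a = 1 := by decide

theorem zmod_two (k : ℕ) : ∑ A : Matrix (Fin 2) (Fin 2) (ZMod 2), A ^ (k + 1)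
    = if Ex (k + 1) then 1 else 0 := by
  induction k using Nat.strong_induction_on with
  | _ k ih =>
    by_cases hk : k < 7
    · exact small k hk
    · have h1 := ih (k - 6) (by omega)
      have h2 : ∀ A : Matrix (Fin 2) (Fin 2) (ZMod 2), A ^ (k + 1) = A ^ (k - 6 + 1) := by
        intro A
        have e1 : k + 1 = 8 + (k - 7) := by omega
        have e2 : k - 6 + 1 = 2 + (k - 7) := by omega
        have h8 : A ^ 8 = A ^ 2 := by
          have h7 := pow8 A
          have e3 : A ^ 8 = A * A * A * A * A * A * A * A := by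
            simp only [pow_succ, pow_zero, one_mul]
          rw [e3, h7, pow_two]
        rw [e1, e2, pow_add, pow_add, h8]
      rw [Finset.sum_congr rfl fun A _ => h2 A, h1]
      have : Ex (k - 6 + 1) ↔ Ex (k + 1) := by unfold Ex; omega
      simp only [this]

/-- the ring with two elements -/
theorem S_F2 {R : Type*} [NonUnitalRing R] [Finite R] (e : R) (hcard : Nat.card R = 2) (he : e ≠ 0)
    (hee : e * e = e) (k : ℕ) :
    S R 2 k = if Ex (k + 1) then Matrix.diagonal (fun _ => e) else 0 := by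
  classical
  have h2 : e + e = 0 := by
    have := card_nsmul_eq_zero' (x := e)
    rw [hcard, two_nsmul] at this
    exact this
  have hall : ∀ x : R, x = 0 ∨ x = e := by
    intro x
    obtain ⟨y, hy, hu⟩ := (Nat.card_eq_two_iff' (0 : R)).1 hcard
    by_cases hx : x = 0
    · exact Or.inl hx
    · exact Or.inr ((hu x hx).trans (hu e he).symm)
  let g : ZMod 2 → R := fun a => if a = 0 then 0 else e
  have g0 : g 0 = 0 := by simp [g]
  have g1 : g 1 = e := by simp [g]
  have gadd : ∀ a b, g (a + b) = g a + g b := by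
    intro a b
    have ha : a = 0 ∨ a = 1 := zc a
    have hb : b = 0 ∨ b = 1 := zc b
    rcases ha with rfl | rfl <;> rcases hb with rfl | rfl
    · simp [g0]
    · simp [g0]
    · simp [g0]
    · have : (1 : ZMod 2) + 1 = 0 := by decide
      rw [this, g0, g1, h2]
  have gmul : ∀ a b, g (a * b) = g a * g b := by
    intro a b
    have ha : a = 0 ∨ a = 1 := zc a
    have hb : b = 0 ∨ b = 1 := zc b
    rcases ha with rfl | rfl <;> rcases hb with rfl | rfl <;> simp [g0, g1, hee]
  let f : ZMod 2 →ₙ+* R :=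
    { toFun := g, map_mul' := gmul, map_zero' := g0, map_add' := gadd }
  have hf : Function.Surjective f := by
    intro x
    rcases hall x with rfl | rfl
    · exact ⟨0, g0⟩
    · exact ⟨1, g1⟩
  have hk : nk f 2 = 1 := by
    have : Nat.card (kr f) = 1 := by
      rw [Nat.card_eq_one_iff_unique]
      refine ⟨⟨fun a b => ?_⟩, ⟨0⟩⟩
      have hz : ∀ a : kr f, a = 0 := by
        rintro ⟨a, ha⟩
        have ha' : g a = 0 := ha
        have hc : a = 0 ∨ a = 1 := zc a
        rcases hc with rfl | rfl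
        · rfl
        · rw [g1] at ha'; exact absurd ha' he
      rw [hz a, hz b]
    rw [nk, this, one_pow]
  have h := map_S (d := 2) f hf k
  rw [hk, one_smul] at h
  rw [← h, S_eq]
  have e1 : ∑ A : Matrix (Fin 2) (Fin 2) (ZMod 2), q A k = if Ex (k + 1) then 1 else 0 := by
    rw [← zmod_two]
    exact Finset.sum_congr rfl fun A _ => q_eq_pow A k
  rw [e1]
  split_ifs
  · ext i j
    rw [Matrix.map_apply]
    by_cases hij : i = j
    · subst hij
      rw [Matrix.one_apply_eq, Matrix.diagonal_apply_eq]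
      exact g1
    · rw [Matrix.one_apply_ne hij, Matrix.diagonal_apply_ne _ hij]
      exact g0
  · ext i j
    exact g0

section Structure

variable {R : Type u} [NonUnitalRing R]

/-- no square-zero ideals -/
def SemiP (R : Type u) [NonUnitalRing R] : Prop :=
  ∀ I : AddSubgroup R, IsIdl I → (∀ x ∈ I, ∀ y ∈ I, x * y = 0) → I = ⊥

/-- nonzero ideals meet -/
def Irr (R : Type u) [NonUnitalRing R] : Prop :=
  ∀ I J : AddSubgroup R, IsIdl I → IsIdl J → I ⊓ J = ⊥ → I = ⊥ ∨ J = ⊥

/-- ideals defined by a condition -/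
def mkI (P : R → Prop) (h0 : P 0) (ha : ∀ x y, P x → P y → P (x + y)) (hn : ∀ x, P x → P (-x)) :
    AddSubgroup R where
  carrier := {x | P x}
  zero_mem' := h0
  add_mem' := fun {x y} hx hy => ha x y hx hy
  neg_mem' := fun {x} hx => hn x hx

theorem mem_mkI (P : R → Prop) (h0 : P 0) (ha : ∀ x y, P x → P y → P (x + y))
    (hn : ∀ x, P x → P (-x)) (x : R) : x ∈ mkI P h0 ha hn ↔ P x := Iff.rfl

theorem mul_ne (hs : SemiP R) (c : R) (hc : c ≠ 0) : ∃ h, c * h ≠ 0 := by
  by_contra hcon
  push Not at hcon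
  let I : AddSubgroup R := mkI (fun z => ∀ h, z * h = 0) (fun h => zero_mul h)
    (fun x y hx hy h => by rw [add_mul, hx, hy, add_zero]) (fun x hx h => by rw [neg_mul, hx, neg_zero])
  have hI : I = ⊥ := by
    refine hs I ?_ ?_
    · intro x hx r
      exact ⟨fun h => by rw [mul_assoc, hx h, mul_zero], fun h => by rw [mul_assoc, hx (r * h)]⟩
    · intro x hx y _
      exact hx y
  have : c ∈ I := hcon
  rw [hI, AddSubgroup.mem_bot] at this
  exact hc this

theorem good_char_two (hs : SemiP R) (hirr : Irr R) (h2 : ∀ x : R, x + x = 0)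
    (hcard : Nat.card R ≠ 2) (c : R) (hc : c ≠ 0) : Good c := by
  obtain ⟨x1, hx1⟩ := mul_ne hs c hc
  by_cases hex : ∃ x2, c * x2 ≠ 0 ∧ c * x1 ≠ c * x2
  · obtain ⟨x2, h2', h12⟩ := hex
    exact good_two h2 c x1 x2 hx1 h2' h12
  · exfalso
    push Not at hex
    set y := c * x1 with hy
    have hc2 : ∀ x, c * x = 0 ∨ c * x = y := by
      intro x
      by_cases h : c * x = 0
      · exact Or.inl h
      · exact Or.inr (hex x h).symm
    have hy2 : ∀ h, y * h = 0 ∨ y * h = y := by
      intro h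
      rw [hy, mul_assoc]
      exact hc2 _
    let L : AddSubgroup R := mkI (fun h => y * h = 0) (mul_zero y)
      (fun a b ha hb => by rw [mul_add, ha, hb, add_zero]) (fun a ha => by rw [mul_neg, ha, neg_zero])
    have hL : IsIdl L := by
      intro h hh r
      have hh' : y * h = 0 := hh
      constructor
      · show y * (r * h) = 0
        rw [← mul_assoc]
        rcases hy2 r with e | e
        · rw [e, zero_mul]
        · rw [e, hh']
      · show y * (h * r) = 0
        rw [← mul_assoc, hh', zero_mul]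
    let J : AddSubgroup R := mkI (fun z => ∀ l, y * l = 0 → z * l = 0) (fun l _ => zero_mul l)
      (fun a b ha hb l hl => by rw [add_mul, ha l hl, hb l hl, add_zero])
      (fun a ha l hl => by rw [neg_mul, ha l hl, neg_zero])
    have hJ : IsIdl J := by
      intro z hz r
      constructor
      · intro l hl
        rw [mul_assoc, hz l hl, mul_zero]
      · intro l hl
        rw [mul_assoc]
        exact hz _ (hL l hl r).1
    have hK : J ⊓ L = ⊥ := by
      refine hs _ ?_ ?_
      · intro x hx r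
        exact ⟨⟨(hJ x hx.1 r).1, (hL x hx.2 r).1⟩, ⟨(hJ x hx.1 r).2, (hL x hx.2 r).2⟩⟩
      · intro x hx x' hx'
        exact hx.1 x' hx'.2
    rcases hirr J L hJ hL hK with h | h
    · have : y ∈ J := fun l hl => hl
      rw [h, AddSubgroup.mem_bot] at this
      exact hx1 this
    · have hinj : ∀ a, y * a = 0 → a = 0 := by
        intro a ha
        have : a ∈ L := ha
        rwa [h, AddSubgroup.mem_bot] at this
      apply hcard
      rw [Nat.card_eq_two_iff' (0 : R)]
      refine ⟨c, hc, fun a ha => ?_⟩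
      have h3 : ∀ a, a ≠ 0 → y * a = y := by
        intro a ha
        rcases hy2 a with e | e
        · exact absurd (hinj a e) ha
        · exact e
      have h4 : y * (a - c) = 0 := by
        rw [mul_sub, h3 a ha, h3 c hc, sub_self]
      exact sub_eq_zero.1 (hinj _ h4)

/-- prime power exponent -/
theorem exists_prime [Finite R] [Nontrivial R] (hirr : Irr R) :
    ∃ p : ℕ, p.Prime ∧ ∃ a : ℕ, ∀ x : R, p ^ a • x = 0 := by
  have hn : 1 < Nat.card R := Finite.one_lt_card
  obtain ⟨p, hp, hpn⟩ := Nat.exists_prime_and_dvd hn.ne'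
  have _ := Fact.mk hp
  obtain ⟨a, m, hm, hnm⟩ := Nat.exists_eq_pow_mul_and_not_dvd (Nat.card_pos (α := R)).ne' p hp.ne_one
  refine ⟨p, hp, a, ?_⟩
  have ha : a ≠ 0 := by
    rintro rfl
    rw [pow_zero, one_mul] at hnm
    exact hm (hnm ▸ hpn)
  let mk : ℕ → AddSubgroup R := fun r => mkI (fun x => r • x = 0) (smul_zero _)
    (fun x y hx hy => by rw [smul_add, hx, hy, add_zero]) (fun x hx => by rw [smul_neg, hx, neg_zero])
  have hmk : ∀ r, IsIdl (mk r) := by
    intro r x hx s
    have hx' : r • x = 0 := hx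
    constructor
    · show r • (s * x) = 0
      rw [← mul_smul_comm, hx', mul_zero]
    · show r • (x * s) = 0
      rw [← smul_mul_assoc, hx', zero_mul]
  have hint : mk (p ^ a) ⊓ mk m = ⊥ := by
    rw [eq_bot_iff]
    rintro x ⟨h1, h2⟩
    have h1' : p ^ a • x = 0 := h1
    have h2' : m • x = 0 := h2
    have hco : Nat.Coprime (p ^ a) m := Nat.Coprime.pow_left _ ((Nat.Prime.coprime_iff_not_dvd hp).2 hm)
    have d1 := addOrderOf_dvd_of_nsmul_eq_zero h1'
    have d2 := addOrderOf_dvd_of_nsmul_eq_zero h2'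
    have : addOrderOf x = 1 := Nat.eq_one_of_dvd_coprimes hco d1 d2
    rw [AddSubgroup.mem_bot]
    exact AddMonoid.addOrderOf_eq_one_iff.1 this
  rcases hirr _ _ (hmk _) (hmk _) hint with h | h
  · exfalso
    let _ := Fintype.ofFinite R
    obtain ⟨x, hx⟩ := exists_prime_addOrderOf_dvd_card p (by rwa [Nat.card_eq_fintype_card] at hpn)
    have h1 : p • x = 0 := by rw [← hx]; exact addOrderOf_nsmul_eq_zero x
    have h2 : x ∈ mk (p ^ a) := by
      show p ^ a • x = 0
      obtain ⟨b, rfl⟩ := Nat.exists_eq_succ_of_ne_zero ha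
      rw [pow_succ, mul_smul, h1, smul_zero]
    rw [h, AddSubgroup.mem_bot] at h2
    rw [h2, addOrderOf_zero] at hx
    exact hp.one_lt.ne hx
  · intro x
    have : p ^ a • x ∈ mk m := by
      show m • (p ^ a • x) = 0
      rw [← mul_smul, mul_comm, ← hnm]
      exact card_nsmul_eq_zero'
    rwa [h, AddSubgroup.mem_bot] at this

/-- prime exponent -/
theorem prime_exponent [Nontrivial R] (hs : SemiP R) (p : ℕ)
    (hp : ∃ a : ℕ, ∀ x : R, p ^ a • x = 0) : ∀ x : R, p • x = 0 := by
  classical
  let a := Nat.find hp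
  have ha : ∀ x : R, p ^ a • x = 0 := Nat.find_spec hp
  have hmin : ∀ b < a, ¬ ∀ x : R, p ^ b • x = 0 := fun b hb => Nat.find_min hp hb
  have h0 : a ≠ 0 := by
    intro h
    rw [h] at ha
    obtain ⟨x, hx⟩ := exists_ne (0 : R)
    exact hx (by simpa using ha x)
  have h1 : ¬ 2 ≤ a := by
    intro h2
    let I : AddSubgroup R := mkI (fun y => ∃ x, y = p ^ (a - 1) • x) ⟨0, by simp⟩
      (by rintro _ _ ⟨x, rfl⟩ ⟨y, rfl⟩; exact ⟨x + y, by rw [smul_add]⟩)
      (by rintro _ ⟨x, rfl⟩; exact ⟨-x, by rw [smul_neg]⟩)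
    have hI : I = ⊥ := by
      refine hs I ?_ ?_
      · rintro _ ⟨x, rfl⟩ r
        exact ⟨⟨r * x, by rw [mul_smul_comm]⟩, ⟨x * r, by rw [smul_mul_assoc]⟩⟩
      · rintro _ ⟨x, rfl⟩ _ ⟨y, rfl⟩
        rw [smul_mul_assoc, mul_smul_comm, ← mul_smul, ← pow_add]
        have : a - 1 + (a - 1) = (a - 2) + a := by omega
        rw [this, pow_add, mul_smul, ha, smul_zero]
    refine hmin (a - 1) (by omega) fun x => ?_
    have : p ^ (a - 1) • x ∈ I := ⟨x, rfl⟩
    rwa [hI, AddSubgroup.mem_bot] at this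
  have h2 : a = 1 := by omega
  intro x
  have := ha x
  rwa [h2, pow_one] at this

end Structure

end Pool.Agent.H119.MatPow
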