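import Mathlib
import Pool.Agent.H119.MatPow4

set_option autoImplicit false

/-!
# Sums of powers of matrices over finite rings: the induction
-/

namespace Pool.Agent.H119.MatPow

open Finset

universe u

theorem ev_smul {M : Type*} [AddCommGroup M] (x : M) (h : x + x = 0) (n : ℕ) (hn : n % 2 = 0) :
    n • x = 0 := by
  obtain ⟨m, rfl⟩ : ∃ m, n = 2 * m := ⟨n / 2, by omega⟩
  rw [mul_comm, mul_smul, two_nsmul, h, smul_zero]

theorem od_smul {M : Type*} [AddCommGroup M] (x : M) (h : x + x = 0) (n : ℕ) (hn : n % 2 = 1) :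
    n • x = x := by
  obtain ⟨m, rfl⟩ : ∃ m, n = 2 * m + 1 := ⟨n / 2, by omega⟩
  rw [add_smul, ev_smul x h (2 * m) (by omega), zero_add, one_smul]

theorem cop {M : Type*} [AddCommGroup M] (x : M) (m n : ℕ) (hc : Nat.Coprime m n)
    (h1 : m • x = 0) (h2 : n • x = 0) : x = 0 := by
  have d1 := addOrderOf_dvd_of_nsmul_eq_zero h1
  have d2 := addOrderOf_dvd_of_nsmul_eq_zero h2
  exact AddMonoid.addOrderOf_eq_one_iff.1 (Nat.eq_one_of_dvd_coprimes hc d1 d2)

/-- the exceptional case -/
def Exc (R : Type u) [NonUnitalRing R] (d m : ℕ) (e : R) : Prop :=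
  d = 2 ∧ Nat.card R % 4 = 2 ∧ Ex m ∧ e ≠ 0 ∧ e + e = 0 ∧ e * e = e

/-- the claim for one ring -/
def Concl (R : Type u) [NonUnitalRing R] [Finite R] (d k : ℕ) : Prop :=
  ((¬ ∃ e : R, Exc R d (k + 1) e) → S R d k = 0) ∧
    ∀ e : R, Exc R d (k + 1) e → S R d k = Matrix.diagonal fun _ => e

theorem Concl.two {R : Type u} [NonUnitalRing R] [Finite R] {d k : ℕ} (h : Concl R d k) :
    S R d k + S R d k = 0 := by
  by_cases hex : ∃ e : R, Exc R d (k + 1) e
  · obtain ⟨e, he⟩ := hex
    rw [h.2 e he, Matrix.diagonal_add]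
    ext i j
    rw [he.2.2.2.2.1]
    by_cases hij : i = j
    · subst hij; rw [Matrix.diagonal_apply_eq]; rfl
    · rw [Matrix.diagonal_apply_ne _ hij]; rfl
  · rw [h.1 hex, add_zero]

section

variable {R T : Type u} [NonUnitalRing R] [NonUnitalRing T] [Finite R] [Finite T] {d : ℕ}
  (f : R →ₙ+* T)

theorem card_mul (hf : Function.Surjective f) : Nat.card R = Nat.card T * Nat.card (kr f) := by
  have h := AddSubgroup.card_eq_card_quotient_mul_card_addSubgroup (kr f)
  rw [h]
  congr 1
  exact Nat.card_congr (QuotientAddGroup.quotientKerEquivOfSurjective (f : R →+ T) hf).toEquiv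

theorem kr_smul (x : R) (hx : x ∈ kr f) : Nat.card (kr f) • x = 0 := by
  have h : Nat.card (kr f) • (⟨x, hx⟩ : kr f) = 0 := card_nsmul_eq_zero'
  exact congrArg Subtype.val h

theorem transfer (hf : Function.Surjective f) (hd : 2 ≤ d) (k : ℕ) (h : Concl T d k) :
    ((¬ ∃ e : R, Exc R d (k + 1) e) → (S R d k).map f = 0) ∧
    ∀ e : R, Exc R d (k + 1) e → (S R d k).map f = Matrix.diagonal fun _ => f e := by
  have hm := map_S (d := d) f hf k
  have hc := card_mul f hf
  have h2 := h.two
  have hdd : d * d ≠ 0 := by positivity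
  constructor
  · intro hno
    rw [hm]
    rcases Nat.mod_two_eq_zero_or_one (Nat.card (kr f)) with hev | hod
    · refine ev_smul _ h2 _ ?_
      rw [nk, Nat.pow_mod, hev, zero_pow hdd, Nat.zero_mod]
    · rw [h.1, smul_zero]
      rintro ⟨e', h1, h3, h4, h5, h6, h7⟩
      apply hno
      obtain ⟨x, hx⟩ := hf e'
      have hR : Nat.card R % 4 = 2 := by
        obtain ⟨m, hm⟩ : ∃ m, Nat.card (kr f) = 2 * m + 1 := ⟨Nat.card (kr f) / 2, by omega⟩
        rw [hc, hm, mul_add, mul_one, ← mul_assoc]
        obtain ⟨l, hl⟩ : ∃ l, Nat.card T = 4 * l + 2 := ⟨Nat.card T / 4, by omega⟩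
        rw [hl]
        have : (4 * l + 2) * 2 * m + (4 * l + 2) = 4 * ((2 * l + 1) * m + l) + 2 := by ring
        rw [this]; omega
      have he2 : (Nat.card R / 2) • x + (Nat.card R / 2) • x = 0 := by
        rw [← add_smul]
        have : Nat.card R / 2 + Nat.card R / 2 = Nat.card R := by omega
        rw [this]; exact card_nsmul_eq_zero'
      have hfe : f ((Nat.card R / 2) • x) = e' := by
        rw [map_nsmul, hx]
        exact od_smul _ h6 _ (by omega)
      refine ⟨(Nat.card R / 2) • x, h1, hR, h4, ?_, he2, ?_⟩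
      · intro h0
        rw [h0, map_zero] at hfe
        exact h5 hfe.symm
      · set e := (Nat.card R / 2) • x with he
        have hk : e * e - e ∈ kr f := by
          rw [mem_kr, map_sub, map_mul, hfe, h7, sub_self]
        have h8 : (e * e - e) + (e * e - e) = 0 := by
          have : (e * e - e) + (e * e - e) = e * (e + e) - (e + e) := by rw [mul_add]; abel
          rw [this, he2, mul_zero, sub_zero]
        have h9 := kr_smul f _ hk
        rw [od_smul _ h8 _ hod] at h9
        exact sub_eq_zero.1 h9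
  · rintro e ⟨h1, h3, h4, h5, h6, h7⟩
    rw [hm]
    have hfe : f e + f e = 0 := by rw [← map_add, h6, map_zero]
    rcases Nat.mod_two_eq_zero_or_one (Nat.card (kr f)) with hev | hod
    · have hT : Nat.card T % 2 = 1 := by
        by_contra hT
        obtain ⟨m, hm⟩ : ∃ m, Nat.card (kr f) = 2 * m := ⟨Nat.card (kr f) / 2, by omega⟩
        obtain ⟨l, hl⟩ : ∃ l, Nat.card T = 2 * l := ⟨Nat.card T / 2, by omega⟩
        rw [hc, hm, hl] at h3
        have : 2 * l * (2 * m) = 4 * (l * m) := by ring
        rw [this] at h3; omega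
      have h0 : f e = 0 := by
        have h8 : Nat.card T • f e = 0 := card_nsmul_eq_zero'
        rwa [od_smul _ hfe _ hT] at h8
      rw [h0, ev_smul _ h2 _ (by rw [nk, Nat.pow_mod, hev, zero_pow hdd, Nat.zero_mod])]
      ext i j
      by_cases hij : i = j
      · subst hij; rw [Matrix.diagonal_apply_eq]; rfl
      · rw [Matrix.diagonal_apply_ne _ hij]; rfl
    · have hT : Nat.card T % 4 = 2 := by
        obtain ⟨m, hm⟩ : ∃ m, Nat.card (kr f) = 2 * m + 1 := ⟨Nat.card (kr f) / 2, by omega⟩
        rw [hc, hm] at h3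
        have e4 : Nat.card T * (2 * m + 1) % 4 = (Nat.card T % 4) * ((2 * m + 1) % 4) % 4 :=
          Nat.mul_mod _ _ _
        rw [e4] at h3
        have a1 : Nat.card T % 4 < 4 := Nat.mod_lt _ (by norm_num)
        have a2 : (2 * m + 1) % 4 = 1 ∨ (2 * m + 1) % 4 = 3 := by omega
        rcases a2 with a2 | a2 <;> rw [a2] at h3 <;> omega
      have hne : f e ≠ 0 := by
        intro h0
        have h8 := kr_smul f e h0
        rw [od_smul _ h6 _ hod] at h8
        exact h5 h8
      have hTe : Exc T d (k + 1) (f e) := ⟨h1, hT, h4, hne, hfe, by rw [← map_mul, h7]⟩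
      rw [od_smul _ h2 _ (by rw [nk, Nat.pow_mod, hod, one_pow]; norm_num)]
      exact h.2 _ hTe

end

/-- prime exponent rings are modules -/
theorem mod_case {R : Type u} [NonUnitalRing R] [Finite R] (p : ℕ) [Fact p.Prime]
    (hs : SemiP R) (hirr : Irr R) (hp : ∀ x : R, p • x = 0) (d : ℕ) (hd : 2 ≤ d) (k : ℕ) :
    Concl R d k := by
  letI : Module (ZMod p) R := AddCommGroup.zmodModule hp
  have hz : ∀ (c : ZMod p) (x : R), c • x = c.val • x := by
    intro c x
    conv_lhs => rw [← ZMod.natCast_zmod_val c]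
    exact Nat.cast_smul_eq_nsmul (ZMod p) _ _
  let _ : IsScalarTower (ZMod p) R R := ⟨fun c x y => by
    show (c • x) * y = c • (x * y)
    rw [hz, hz, smul_mul_assoc]⟩
  let _ : SMulCommClass (ZMod p) R R := ⟨fun c x y => by
    show c • (x * y) = x * (c • y)
    rw [hz, hz, mul_smul_comm]⟩
  rcases Nat.lt_or_ge d 3 with h3 | h3
  · have hd2 : d = 2 := by omega
    subst hd2
    by_cases hc : Nat.card R = 2
    · obtain ⟨e0, he0, hu⟩ := (Nat.card_eq_two_iff' (0 : R)).1 hc
      have hee : e0 * e0 = e0 := by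
        obtain ⟨h, hh⟩ := mul_ne hs e0 he0
        have h0 : h ≠ 0 := by rintro rfl; exact hh (mul_zero _)
        rw [hu h h0] at hh
        exact hu _ hh
      have hS := S_F2 e0 hc he0 hee k
      have h2 : e0 + e0 = 0 := by
        have := card_nsmul_eq_zero' (x := e0)
        rw [hc, two_nsmul] at this
        exact this
      constructor
      · intro hno
        rw [hS, if_neg]
        intro hE
        exact hno ⟨e0, rfl, by rw [hc], hE, he0, h2, hee⟩
      · rintro e ⟨-, -, hE, h5, -, -⟩
        rw [hS, if_pos hE, hu e h5]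
    · have hgood : ∀ c : R, c ≠ 0 → Good c := by
        intro c hc0
        by_cases hp2 : p = 2
        · subst hp2
          refine good_char_two hs hirr (fun x => ?_) hc c hc0
          rw [← two_nsmul]; exact hp x
        · exact good_odd p hp2 c (mul_ne hs c hc0)
      have h0 : S R 2 k = 0 := S_two p k hgood
      refine ⟨fun _ => h0, ?_⟩
      rintro e ⟨-, h4, -, h5, h6, -⟩
      exfalso
      have hp2 : p = 2 := by
        by_contra hne
        apply h5
        refine cop e p 2 ?_ (hp e) (by rw [two_nsmul, h6])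
        exact (Nat.coprime_primes Fact.out Nat.prime_two).2 hne
      subst hp2
      have hcd := Module.natCard_eq_pow_finrank (K := ZMod 2) (V := R)
      rw [Nat.card_zmod] at hcd
      generalize Module.finrank (ZMod 2) R = n at hcd
      rcases n with _ | _ | n
      · rw [hcd] at h4; norm_num at h4
      · exact hc (by rw [hcd]; norm_num)
      · rw [hcd, pow_succ, pow_succ, mul_assoc] at h4
        omega
  · have h0 := S_three (R := R) p d h3 k
    refine ⟨fun _ => h0, ?_⟩
    rintro e ⟨h1, -⟩
    omega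

/-- the case of a square-zero ideal -/
theorem sq_case {R T : Type u} [NonUnitalRing R] [Finite R] [NonUnitalRing T] [Finite T]
    (f : R →ₙ+* T) (hf : Function.Surjective f) (hsq : ∀ x ∈ kr f, ∀ y ∈ kr f, x * y = 0)
    (hne : ∃ x ∈ kr f, x ≠ 0) (p : ℕ) (hpp : p.Prime) (a : ℕ) (hp : ∀ x : R, p ^ a • x = 0)
    (d : ℕ) (hd : 2 ≤ d) (k : ℕ) (hT : Concl T d k) : Concl R d k := by
  obtain ⟨X, hX, hXf⟩ := S_sqzero f hf k hd hsq
  have h2 := hT.two
  have hdd : 2 ≤ d * d := by nlinarith
  set c := Nat.card (kr f) with hc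
  have hXX : c • (X + X) = 0 := by
    ext i j
    rw [Matrix.smul_apply, Matrix.zero_apply]
    refine kr_smul f _ ?_
    rw [mem_kr, Matrix.add_apply, map_add]
    have h3 := congrFun (congrFun h2 i) j
    rw [← hXf] at h3
    exact h3
  have hcR := card_mul f hf
  by_cases hp2 : p = 2
  · subst hp2
    have hev : c % 2 = 0 := by
      by_contra hod
      obtain ⟨x, hx, hx0⟩ := hne
      apply hx0
      refine cop x (2 ^ a) c ?_ (hp x) (kr_smul f x hx)
      refine Nat.Coprime.pow_left _ ?_
      rw [Nat.coprime_two_left]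
      exact Nat.odd_iff.2 (by omega)
    have h0 : S R d k = 0 := by
      rw [hX, nk, ← hc]
      obtain ⟨b, hb⟩ : ∃ b, d * d = b + 2 := ⟨d * d - 2, by omega⟩
      obtain ⟨c', hc'⟩ : ∃ c', c = 2 * c' := ⟨c / 2, by omega⟩
      have : c ^ (d * d) = (c ^ b * c') * c * 2 := by
        rw [hb, pow_add, pow_two]
        nth_rewrite 2 [hc']
        ring
      rw [this, mul_smul, mul_smul, two_nsmul, hXX, smul_zero]
    refine ⟨fun _ => h0, ?_⟩
    rintro e ⟨-, h4, -, h5, h6, h7⟩
    exfalso
    have hTo : Nat.card T % 2 = 1 := by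
      by_contra hT'
      obtain ⟨m, hm⟩ : ∃ m, c = 2 * m := ⟨c / 2, by omega⟩
      obtain ⟨l, hl⟩ : ∃ l, Nat.card T = 2 * l := ⟨Nat.card T / 2, by omega⟩
      rw [hcR, ← hc, hm, hl] at h4
      have : 2 * l * (2 * m) = 4 * (l * m) := by ring
      rw [this] at h4; omega
    have h8 : f e = 0 := by
      have h9 : Nat.card T • f e = 0 := card_nsmul_eq_zero'
      have h10 : f e + f e = 0 := by rw [← map_add, h6, map_zero]
      rwa [od_smul _ h10 _ hTo] at h9
    have h11 := hsq e h8 e h8
    rw [h7] at h11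
    exact h5 h11
  · have hz : ∀ x : R, x + x = 0 → x = 0 := by
      intro x hx
      refine cop x (p ^ a) 2 ?_ (hp x) (by rw [two_nsmul, hx])
      exact Nat.Coprime.pow_left _ ((Nat.coprime_primes hpp Nat.prime_two).2 hp2)
    have h0 : S R d k = 0 := by
      have h3 : S R d k + S R d k = 0 := by
        rw [hX, ← smul_add, nk, ← hc]
        obtain ⟨b, hb⟩ : ∃ b, d * d = b + 1 := ⟨d * d - 1, by omega⟩
        rw [hb, pow_succ, mul_smul, hXX, smul_zero]
      ext i j
      exact hz _ (congrFun (congrFun h3 i) j)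
    refine ⟨fun _ => h0, ?_⟩
    rintro e ⟨-, -, -, h5, h6, -⟩
    exact absurd (hz e h6) h5

/-- the induction -/
theorem main (n : ℕ) : ∀ (R : Type u) [NonUnitalRing R] [Finite R], Nat.card R = n →
    ∀ d : ℕ, 2 ≤ d → ∀ k : ℕ, Concl R d k := by
  induction n using Nat.strong_induction_on with
  | _ n ih =>
    intro R _ _ hn d hd k
    rcases subsingleton_or_nontrivial R with hsub | hnt
    · refine ⟨fun _ => Matrix.ext fun i j => Subsingleton.elim _ _, ?_⟩
      rintro e ⟨-, -, -, h5, -⟩
      exact absurd (Subsingleton.elim e 0) h5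
    have hquot : ∀ I : AddSubgroup R, IsIdl I → I ≠ ⊥ → ∃ (T : Type u) (_ : NonUnitalRing T)
        (_ : Finite T) (f : R →ₙ+* T), Function.Surjective f ∧ (∀ x, f x = 0 ↔ x ∈ I) ∧
          Concl T d k := by
      intro I hI hI0
      obtain ⟨T, iT, f, hf, hfI⟩ := exists_quot I hI
      have _ : Finite T := Finite.of_surjective f hf
      refine ⟨T, iT, inferInstance, f, hf, hfI, ?_⟩
      refine ih (Nat.card T) ?_ T rfl d hd k
      have hkI : kr f = I := by
        ext x
        rw [mem_kr]; exact hfI x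
      have h1 := card_mul f hf
      rw [hkI] at h1
      have h2 : 1 < Nat.card I := by
        have _ : Nontrivial I := (AddSubgroup.nontrivial_iff_ne_bot I).2 hI0
        exact Finite.one_lt_card
      have h3 : 0 < Nat.card T := Nat.card_pos
      rw [← hn, h1]
      nlinarith
    by_cases hirr : Irr R
    · obtain ⟨p, hpp, a, hp⟩ := exists_prime hirr
      by_cases hs : SemiP R
      · have _ := Fact.mk hpp
        exact mod_case p hs hirr (prime_exponent hs p ⟨a, hp⟩) d hd k
      · unfold SemiP at hs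
        push Not at hs
        obtain ⟨I, hI, hsq, hI0⟩ := hs
        obtain ⟨T, iT, iF, f, hf, hfI, hT⟩ := hquot I hI hI0
        refine sq_case f hf ?_ ?_ p hpp a hp d hd k hT
        · intro x hx y hy
          exact hsq x ((hfI x).1 hx) y ((hfI y).1 hy)
        · obtain ⟨x, hx0⟩ := AddSubgroup.ne_bot_iff_exists_ne_zero.1 hI0
          exact ⟨x.1, (hfI x.1).2 x.2, fun h => hx0 (Subtype.ext h)⟩
    · unfold Irr at hirr
      push Not at hirr
      obtain ⟨I, J, hI, hJ, hIJ, hI0, hJ0⟩ := hirr
      obtain ⟨T, iT, iF, f, hf, hfI, hT⟩ := hquot I hI hI0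
      obtain ⟨T', iT', iF', g, hg, hgJ, hT'⟩ := hquot J hJ hJ0
      have t1 := transfer f hf hd k hT
      have t2 := transfer g hg hd k hT'
      have hzero : ∀ x : R, f x = 0 → g x = 0 → x = 0 := by
        intro x h1 h2
        have : x ∈ I ⊓ J := ⟨(hfI x).1 h1, (hgJ x).1 h2⟩
        rwa [hIJ, AddSubgroup.mem_bot] at this
      constructor
      · intro hno
        ext i j
        refine hzero _ ?_ ?_
        · exact congrFun (congrFun (t1.1 hno) i) j
        · exact congrFun (congrFun (t2.1 hno) i) j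
      · intro e he
        ext i j
        have e1 := congrFun (congrFun (t1.2 e he) i) j
        have e2 := congrFun (congrFun (t2.2 e he) i) j
        rw [Matrix.map_apply] at e1 e2
        refine sub_eq_zero.1 (hzero _ ?_ ?_)
        · rw [map_sub, e1]
          by_cases hij : i = j
          · subst hij; rw [Matrix.diagonal_apply_eq, Matrix.diagonal_apply_eq, sub_self]
          · rw [Matrix.diagonal_apply_ne _ hij, Matrix.diagonal_apply_ne _ hij, map_zero, sub_self]
        · rw [map_sub, e2]
          by_cases hij : i = j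
          · subst hij; rw [Matrix.diagonal_apply_eq, Matrix.diagonal_apply_eq, sub_self]
          · rw [Matrix.diagonal_apply_ne _ hij, Matrix.diagonal_apply_ne _ hij, map_zero, sub_self]

/-- uniqueness of the element of order two -/
theorem uniq {R : Type u} [NonUnitalRing R] [Finite R] (h : Nat.card R % 4 = 2) :
    ∃! e : R, e ≠ 0 ∧ e + e = 0 := by
  let H : AddSubgroup R := mkI (fun x => x + x = 0) (add_zero 0)
    (fun x y hx hy => by
      have : x + y + (x + y) = (x + x) + (y + y) := by abel
      rw [this, hx, hy, add_zero])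
    (fun x hx => by rw [← neg_add, hx, neg_zero])
  have hH : ∀ x : H, 2 • x = 0 := fun x => by
    apply Subtype.ext
    have : x.1 + x.1 = 0 := x.2
    rw [two_nsmul]; exact this
  letI : Module (ZMod 2) H := AddCommGroup.zmodModule hH
  have hcd := Module.natCard_eq_pow_finrank (K := ZMod 2) (V := H)
  rw [Nat.card_zmod] at hcd
  have hdvd := AddSubgroup.card_addSubgroup_dvd_card H
  have hle : Nat.card H ≤ 2 := by
    rw [hcd] at hdvd ⊢
    generalize Module.finrank (ZMod 2) H = n at hdvd
    rcases n with _ | _ | n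
    · norm_num
    · norm_num
    · exfalso
      have : 4 ∣ 2 ^ (n + 1 + 1) := ⟨2 ^ n, by rw [pow_succ, pow_succ]; ring⟩
      have h4 := this.trans hdvd
      omega
  let _ := Fintype.ofFinite R
  obtain ⟨e, he⟩ := exists_prime_addOrderOf_dvd_card (G := R) 2
    (by rw [← Nat.card_eq_fintype_card]; omega)
  have he0 : e ≠ 0 := by
    rintro rfl
    rw [addOrderOf_zero] at he
    omega
  have he2 : e + e = 0 := by
    have := addOrderOf_nsmul_eq_zero e
    rwa [he, two_nsmul] at this
  refine ⟨e, ⟨he0, he2⟩, ?_⟩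
  rintro y ⟨hy0, hy2⟩
  by_contra hne
  have h3 : 2 < Nat.card H := by
    have hinj : Function.Injective (![⟨0, add_zero 0⟩, ⟨e, he2⟩, ⟨y, hy2⟩] : Fin 3 → H) := by
      intro i j hij
      have h1 := congrArg Subtype.val hij
      fin_cases i <;> fin_cases j <;> first | rfl | (exfalso; simp at h1; first
        | exact he0 h1 | exact he0 h1.symm | exact hy0 h1 | exact hy0 h1.symm
        | exact hne h1 | exact hne h1.symm)
    have := Nat.card_le_card_of_injective _ hinj
    rw [Nat.card_eq_fintype_card, Fintype.card_fin] at this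
    omega
  omega

end Pool.Agent.H119.MatPow
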